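import Mathlib

set_option autoImplicit false

namespace Pool.Agent.FCV

section card0

open Cardinal

section closure

variable {Ω : Type} (F : Finset Ω → Set Ω)

/-- closed under the finitary operation `F` -/
def Closed (C : Set Ω) : Prop := ∀ s : Finset Ω, ↑s ⊆ C → F s ⊆ C

/-- the closure -/
def cl (A : Set Ω) : Set Ω := ⋂₀ {C | Closed F C ∧ A ⊆ C}

variable {F}

theorem subset_cl (A : Set Ω) : A ⊆ cl F A := by
  intro x hx C hC
  exact hC.2 hx

theorem cl_closed (A : Set Ω) : Closed F (cl F A) := by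
  intro s hs x hx C hC
  exact hC.1 s (fun y hy => hs hy C hC) hx

theorem cl_min {A C : Set Ω} (hC : Closed F C) (hA : A ⊆ C) : cl F A ⊆ C := by
  intro x hx
  exact hx C ⟨hC, hA⟩

theorem mk_finset_le (α : Type) : #(Finset α) ≤ max ℵ₀ #α := by
  cases finite_or_infinite α with
  | inl h => exact le_max_of_le_left (le_of_lt (lt_aleph0_of_finite _))
  | inr h => rw [mk_finset_of_infinite]; exact le_max_right _ _

/-- one step of the closure -/
def stepC (F : Finset Ω → Set Ω) (S : Set Ω) : Set Ω :=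
  S ∪ ⋃ s : Finset S, F (s.map (Function.Embedding.subtype (· ∈ S)))

/-- the iterated steps -/
def itC (F : Finset Ω → Set Ω) (A : Set Ω) : ℕ → Set Ω
  | 0 => A
  | (n+1) => stepC F (itC F A n)

theorem mk_cl_le (hF : ∀ s, (F s).Countable) (A : Set Ω) : #(cl F A) ≤ max ℵ₀ #A := by
  set κ := max ℵ₀ #A with hκ
  have hB0 : itC F A 0 = A := rfl
  have hBs : ∀ n, itC F A (n+1) = stepC F (itC F A n) := fun n => rfl
  generalize itC F A = B at hB0 hBs
  have hBmono : Monotone B := by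
    apply monotone_nat_of_le_succ
    intro n
    rw [hBs, stepC]
    exact Set.subset_union_left
  have hcard : ∀ n, #(B n) ≤ κ := by
    intro n
    induction n with
    | zero => rw [hB0]; exact le_max_right _ _
    | succ n ih =>
      rw [hBs, stepC]
      refine (mk_union_le _ _).trans ?_
      have h1 : #(⋃ s : Finset (B n), F (s.map (Function.Embedding.subtype (· ∈ B n)))) ≤ κ := by
        refine (mk_iUnion_le _).trans ?_
        have h2 : #(Finset (B n)) ≤ κ :=
          (mk_finset_le _).trans (max_le (le_max_left _ _) ih)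
        have h3 : (⨆ s : Finset (B n), #(F (s.map (Function.Embedding.subtype (· ∈ B n))))) ≤ ℵ₀ := by
          apply ciSup_le'
          intro s
          rw [le_aleph0_iff_set_countable]
          exact hF _
        calc _ ≤ κ * κ := mul_le_mul' h2 (h3.trans (le_max_left _ _))
          _ = κ := mul_eq_self (le_max_left _ _)
      calc _ ≤ κ + κ := add_le_add ih h1
        _ = κ := add_eq_self (le_max_left _ _)
  have hUclosed : Closed F (⋃ n, B n) := by
    intro s hs
    have : ∃ n, ↑s ⊆ B n := by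
      exact (hBmono.directed_le).exists_mem_subset_of_finset_subset_biUnion hs
    obtain ⟨n, hn⟩ := this
    intro x hx
    refine Set.mem_iUnion.mpr ⟨n+1, ?_⟩
    rw [hBs, stepC]
    right
    classical
    refine Set.mem_iUnion.mpr ⟨s.subtype (· ∈ B n), ?_⟩
    have : (s.subtype (· ∈ B n)).map (Function.Embedding.subtype _) = s := by
      rw [Finset.subtype_map]
      exact Finset.filter_true_of_mem (fun x hx => hn hx)
    rw [this]
    exact hx
  have hle : cl F A ⊆ ⋃ n, B n := cl_min hUclosed (by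
    have := Set.subset_iUnion B 0
    rwa [hB0] at this)
  refine (mk_le_mk_of_subset hle).trans ?_
  refine (mk_iUnion_le _).trans ?_
  have h3 : (⨆ n, #(B n)) ≤ κ := ciSup_le' hcard
  calc _ ≤ κ * κ := mul_le_mul' (by rw [mk_nat]; exact le_max_left _ _) h3
    _ = κ := mul_eq_self (le_max_left _ _)

end closure

end card0

section li0

open scoped commutatorElement

section li

variable {G : Type} [Group G]

/-- locally inner maps -/
def LI (f : G → G) : Prop := ∀ s : Finset G, ∃ c : G, ∀ g ∈ s, f g = c⁻¹ * g * c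

/-- displacement -/
def dl (x : MulAut G) (g : G) : G := g⁻¹ * x g

theorem dl_eq (x : MulAut G) (g : G) : x g = g * dl x g := by
  unfold dl; group

theorem dl_mul (x y : MulAut G) (g : G) : dl (x * y) g = dl x g * x (dl y g) := by
  unfold dl
  rw [MulAut.mul_apply, map_mul, map_inv]
  group

theorem dl_inv (x : MulAut G) (g : G) : dl x⁻¹ g = (dl x (x⁻¹ g))⁻¹ := by
  unfold dl
  rw [MulAut.apply_inv_self]
  group

/-- finitary locally inner automorphisms -/
def XX (G : Type) [Group G] : Subgroup (MulAut G) where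
  carrier := {x | LI (x : G → G) ∧ (Set.range (dl x)).Finite}
  one_mem' := by
    refine ⟨fun s => ⟨1, fun g _ => by simp⟩, ?_⟩
    refine (Set.finite_singleton (1 : G)).subset ?_
    rintro _ ⟨g, rfl⟩
    simp [dl]
  mul_mem' := by
    rintro x y ⟨hx, hx'⟩ ⟨hy, hy'⟩
    classical
    constructor
    · intro s
      obtain ⟨c, hc⟩ := hy s
      obtain ⟨d, hd⟩ := hx (s.image y)
      refine ⟨c * d, fun g hg => ?_⟩
      rw [MulAut.mul_apply, hd _ (Finset.mem_image_of_mem _ hg), hc g hg]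
      group
    · refine (hx'.mul (hy'.image x)).subset ?_
      rintro _ ⟨g, rfl⟩
      rw [dl_mul]
      exact Set.mul_mem_mul ⟨g, rfl⟩ ⟨_, ⟨g, rfl⟩, rfl⟩
  inv_mem' := by
    rintro x ⟨hx, hx'⟩
    classical
    constructor
    · intro s
      obtain ⟨c, hc⟩ := hx (s.image (x⁻¹ : MulAut G))
      refine ⟨c⁻¹, fun g hg => ?_⟩
      have := hc _ (Finset.mem_image_of_mem _ hg)
      rw [MulAut.apply_inv_self] at this
      nth_rw 2 [this]
      group
    · refine (hx'.inv).subset ?_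
      rintro _ ⟨g, rfl⟩
      rw [dl_inv]
      exact Set.inv_mem_inv.mpr ⟨_, rfl⟩

theorem LI.center {x : MulAut G} (hx : LI (x : G → G)) {z : G} (hz : z ∈ Subgroup.center G) :
    x z = z := by
  obtain ⟨c, hc⟩ := hx {z}
  rw [hc z (by simp), mul_assoc, ← Subgroup.mem_center_iff.mp hz c]
  group

theorem LI.normal {x : MulAut G} (hx : LI (x : G → G)) {N : Subgroup G} (hN : N.Normal) {g : G}
    (hg : g ∈ N) : x g ∈ N := by
  obtain ⟨c, hc⟩ := hx {g}
  rw [hc g (by simp)]
  have := hN.conj_mem g hg c⁻¹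
  simpa using this

theorem LI.dl_comm {x : MulAut G} (hx : LI (x : G → G)) (g : G) : dl x g ∈ commutator G := by
  obtain ⟨c, hc⟩ := hx {g}
  unfold dl
  rw [hc g (by simp)]
  have : g⁻¹ * (c⁻¹ * g * c) = ⁅g⁻¹, c⁻¹⁆ := by
    rw [commutatorElement_def]; group
  rw [this]
  exact Subgroup.commutator_mem_commutator (Subgroup.mem_top _) (Subgroup.mem_top _)

theorem LI.dl_normal {x : MulAut G} (hx : LI (x : G → G)) {N : Subgroup G} (hN : N.Normal) {g : G}
    (hg : g ∈ N) : dl x g ∈ N := mul_mem (inv_mem hg) (hx.normal hN hg)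

/-- finite conjugacy classes -/
def FCG (G : Type) [Group G] : Prop := ∀ g : G, {h : G | IsConj g h}.Finite

theorem FCG.fin (hFC : FCG G) (g : G) : {u | ∃ c, u = c⁻¹ * g * c}.Finite := by
  refine (hFC g).subset ?_
  rintro _ ⟨c, rfl⟩
  show IsConj g _
  rw [isConj_iff]
  exact ⟨c⁻¹, by simp⟩

theorem conj_mem_XX (hFC : FCG G) (c : G) : MulAut.conj c ∈ XX G := by
  constructor
  · intro s
    exact ⟨c⁻¹, fun g _ => by simp⟩
  · refine ((hFC.fin c).image (fun u => u * c⁻¹)).subset ?_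
    rintro _ ⟨g, rfl⟩
    refine ⟨g⁻¹ * c * g, ⟨g, rfl⟩, ?_⟩
    simp only [dl, MulAut.conj_apply]
    group

theorem XX.li {x : MulAut G} (hx : x ∈ XX G) : LI (x : G → G) := hx.1

theorem XX_classes {x : MulAut G} (hx : x ∈ XX G) :
    {w | ∃ y ∈ XX G, w = y⁻¹ * x * y}.Finite := by
  classical
  set T : Set (MulAut G) := {t | ∃ c, t = (MulAut.conj c)⁻¹ * x * MulAut.conj c} with hT
  have hTf : T.Finite := by
    refine (hx.2.image (fun u => MulAut.conj u * x)).subset ?_
    rintro _ ⟨c, rfl⟩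
    refine ⟨dl x c, ⟨c, rfl⟩, ?_⟩
    ext g
    have e1 : ((MulAut.conj c)⁻¹ * x * MulAut.conj c) g = c⁻¹ * x (c * g * c⁻¹) * c := by
      rw [MulAut.mul_apply, MulAut.mul_apply, ← map_inv, MulAut.conj_apply, MulAut.conj_apply,
        inv_inv]
    have e2 : (MulAut.conj (dl x c) * x) g = (c⁻¹ * x c) * x g * (c⁻¹ * x c)⁻¹ := by
      rw [MulAut.mul_apply, MulAut.conj_apply]
      rfl
    show (MulAut.conj (dl x c) * x) g = _
    rw [e1, e2, map_mul, map_mul, map_inv]
    group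
  refine hTf.subset ?_
  rintro u ⟨y, hy, rfl⟩
  by_contra hcon
  set u := y⁻¹ * x * y with hu
  have h1 : ∀ t : MulAut G, ∃ w, t ≠ u → u w ≠ t w := by
    intro t
    by_cases h : t = u
    · exact ⟨1, fun h' => absurd h h'⟩
    · by_contra hc
      push Not at hc
      apply h
      ext w
      exact (hc w).2.symm
  choose w hw using h1
  obtain ⟨c, hc⟩ := hy.1 (hTf.toFinset.image w ∪ hTf.toFinset.image (fun t => u (w t)))
  set t0 := (MulAut.conj c⁻¹)⁻¹ * x * MulAut.conj c⁻¹ with ht0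
  have ht0T : t0 ∈ T := ⟨c⁻¹, rfl⟩
  have hne : t0 ≠ u := by
    intro h
    rw [h] at ht0T
    exact hcon ht0T
  apply hw t0 hne
  have h2 := hc (w t0) (Finset.mem_union_left _ (Finset.mem_image_of_mem _ (hTf.mem_toFinset.mpr ht0T)))
  have h3 := hc (u (w t0)) (Finset.mem_union_right _
    (Finset.mem_image_of_mem (fun t => u (w t)) (hTf.mem_toFinset.mpr ht0T)))
  have h4 : y (u (w t0)) = x (y (w t0)) := by
    rw [hu]
    simp [MulAut.mul_apply]
  have h5 : t0 (w t0) = c * x (y (w t0)) * c⁻¹ := by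
    have : t0 (w t0) = c * x (c⁻¹ * w t0 * c) * c⁻¹ := by
      rw [ht0]
      simp [MulAut.mul_apply, MulAut.conj_apply]
    rw [this, ← h2]
  rw [h5, ← h4, h3]
  group

theorem li_toMulAut (hFC : FCG G) {f : G → G} (hf : LI f) : ∃ x : MulAut G, ∀ g, x g = f g := by
  classical
  have hmul : ∀ a b, f (a * b) = f a * f b := by
    intro a b
    obtain ⟨c, hc⟩ := hf {a, b, a * b}
    rw [hc a (by simp), hc b (by simp), hc (a * b) (by simp)]
    group
  have hinj : Function.Injective f := by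
    intro a b hab
    obtain ⟨c, hc⟩ := hf {a, b}
    rw [hc a (by simp), hc b (by simp)] at hab
    simpa using hab
  have hsurj : Function.Surjective f := by
    intro g
    have hmaps : Set.MapsTo f {u | ∃ c, u = c⁻¹ * g * c} {u | ∃ c, u = c⁻¹ * g * c} := by
      rintro _ ⟨c, rfl⟩
      obtain ⟨d, hd⟩ := hf {c⁻¹ * g * c}
      refine ⟨c * d, ?_⟩
      rw [hd _ (by simp)]
      group
    have := (hFC.fin g).to_subtype
    have hs : Function.Surjective (hmaps.restrict f _ _) := by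
      apply Finite.surjective_of_injective
      intro a b hab
      exact Subtype.ext (hinj (congrArg Subtype.val hab))
    obtain ⟨u, hu⟩ := hs ⟨g, 1, by simp⟩
    exact ⟨u.1, congrArg Subtype.val hu⟩
  exact ⟨MulEquiv.ofBijective (MonoidHom.mk' f hmul) ⟨hinj, hsurj⟩, fun g => rfl⟩

theorem exists_finite_reps {A B : Type} (f : A → B) (h : (Set.range f).Finite) :
    ∃ T : Finset A, ∀ a, ∃ t ∈ T, f a = f t := by
  classical
  have := h.to_subtype
  choose r hr using fun b : Set.range f => b.2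
  have := Fintype.ofFinite (Set.range f)
  refine ⟨Finset.univ.image r, fun a => ⟨r ⟨f a, a, rfl⟩, ?_, ?_⟩⟩
  · exact Finset.mem_image_of_mem _ (Finset.mem_univ _)
  · exact (hr ⟨f a, a, rfl⟩).symm

theorem lemmaA (hFC : FCG G) (R : Subgroup G) (hRn : R.Normal) (hR : (R : Set G).Finite) :
    ∃ S : Finset G, ∀ H : Subgroup G, ↑S ⊆ (H : Set G) → ∀ y : MulAut G,
      (∀ h ∈ H, dl y h ∈ R) → (∀ s ∈ S, y s = s) → ∀ h ∈ H, dl y h ∈ Subgroup.center G := by
  classical
  have := hR.to_subtype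
  obtain ⟨T, hT⟩ : ∃ T : Finset G, ∀ g, ∃ t ∈ T, (fun r : R => g⁻¹ * r.1 * g) =
      (fun r : R => t⁻¹ * r.1 * t) := by
    apply exists_finite_reps (fun (g : G) (r : R) => g⁻¹ * r.1 * g)
    refine (Set.Finite.pi' (fun r : R => hFC.fin r.1)).subset ?_
    rintro _ ⟨g, rfl⟩ r
    exact ⟨g, rfl⟩
  have hfin : (↑T ∪ (R : Set G) ∪ ⋃ t ∈ T, (fun u => u * t) '' {u | ∃ c, u = c⁻¹ * t⁻¹ * c}).Finite := by
    refine ((T.finite_toSet.union hR).union ?_)
    exact Set.Finite.biUnion T.finite_toSet (fun t _ => (hFC.fin t⁻¹).image _)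
  refine ⟨hfin.toFinset, ?_⟩
  intro H hSH y hy hyS h hh
  have hS : ∀ g, g ∈ (↑T ∪ (R : Set G) ∪ ⋃ t ∈ T, (fun u => u * t) '' {u | ∃ c, u = c⁻¹ * t⁻¹ * c}) →
      y g = g ∧ g ∈ H := by
    intro g hg
    have hg' := hfin.mem_toFinset.mpr hg
    exact ⟨hyS g hg', hSH hg'⟩
  have hT' : ∀ t ∈ T, y t = t ∧ t ∈ H := fun t ht => hS t (Or.inl (Or.inl ht))
  have hc' : ∀ t ∈ T, ∀ g, y (g⁻¹ * t⁻¹ * g * t) = g⁻¹ * t⁻¹ * g * t := by
    intro t ht g
    refine (hS _ (Or.inr ?_)).1
    simp only [Set.mem_iUnion]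
    exact ⟨t, ht, _, ⟨g, rfl⟩, rfl⟩
  obtain ⟨t, ht, hteq⟩ := hT h
  have hteq' : ∀ r ∈ R, h⁻¹ * r * h = t⁻¹ * r * t := fun r hr => congrFun hteq ⟨r, hr⟩
  set g := h * t⁻¹ with hg
  have hgH : g ∈ H := mul_mem hh (inv_mem (hT' t ht).2)
  have hgc : ∀ r ∈ R, g * r = r * g := by
    intro r hr
    have := hteq' r hr
    have h2 : r * h = h * (t⁻¹ * r * t) := by rw [← this]; group
    have h3 : r * g = g * r := by
      rw [hg]
      calc r * (h * t⁻¹) = (r * h) * t⁻¹ := by group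
        _ = h * t⁻¹ * r := by rw [h2]; group
    exact h3.symm
  set r := dl y g with hr
  have hrR : r ∈ R := hy g hgH
  have hyg : y g = g * r := dl_eq y g
  have hcommT : ∀ s ∈ T, s⁻¹ * r * s = r := by
    intro s hs
    have e1 : y (s⁻¹ * g * s) = s⁻¹ * (g * r) * s := by
      rw [map_mul, map_mul, map_inv, hyg, (hT' s hs).1]
    have e2 : y (s⁻¹ * g * s) = g * r * (g⁻¹ * s⁻¹ * g * s) := by
      have : s⁻¹ * g * s = g * (g⁻¹ * s⁻¹ * g * s) := by group
      rw [this, map_mul, hyg, hc' s hs g]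
    have e3 : g * r * (g⁻¹ * s⁻¹ * g * s) = r * (s⁻¹ * g * s) := by
      rw [hgc r hrR]; group
    -- s⁻¹ g s commutes with R
    have e4 : (s⁻¹ * g * s) * r = r * (s⁻¹ * g * s) := by
      have hr' : s * r * s⁻¹ ∈ R := hRn.conj_mem r hrR s
      have := hgc _ hr'
      calc (s⁻¹ * g * s) * r = s⁻¹ * (g * (s * r * s⁻¹)) * s := by group
        _ = s⁻¹ * ((s * r * s⁻¹) * g) * s := by rw [this]
        _ = _ := by group
    have e5 : (s⁻¹ * g * s) * (s⁻¹ * r * s) = (s⁻¹ * g * s) * r := by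
      rw [e4, ← e3, ← e2, e1]; group
    exact mul_left_cancel e5
  have hcen : r ∈ Subgroup.center G := by
    rw [Subgroup.mem_center_iff]
    intro a
    obtain ⟨s, hs, hseq⟩ := hT a
    have h1 : a⁻¹ * r * a = s⁻¹ * r * s := congrFun hseq ⟨r, hrR⟩
    rw [hcommT s hs] at h1
    calc a * r = a * (a⁻¹ * r * a) := by rw [h1]
      _ = r * a := by group
  have : dl y h = r := by
    have hh' : h = g * t := by rw [hg]; group
    unfold dl
    rw [hh', map_mul, hyg, (hT' t ht).1]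
    calc (g * t)⁻¹ * (g * r * t) = t⁻¹ * r * t := by group
      _ = r := hcommT t ht
  rw [this]
  exact hcen

theorem compactness (hFC : FCG G) (S : Finset G) (σ : G → G) (R : Set G) (hR : R.Finite)
    (h : ∀ W : Finset G, ∃ x ∈ XX G, (∀ s ∈ S, x s = σ s) ∧ ∀ w ∈ W, dl x w ∈ R) :
    ∃ x ∈ XX G, (∀ s ∈ S, x s = σ s) ∧ ∀ g, dl x g ∈ R := by
  classical
  choose x hx hxS hxR using h
  let U : Ultrafilter (Finset G) := Ultrafilter.of Filter.atTop
  have hU : (U : Filter (Finset G)) ≤ Filter.atTop := Ultrafilter.of_le _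
  have hval : ∀ g, ∃ v, ∀ᶠ W in (U : Filter (Finset G)), x W g = v := by
    intro g
    have hmem : (⋃ v ∈ {u | ∃ c, u = c⁻¹ * g * c}, {W | x W g = v}) ∈ U := by
      have : (⋃ v ∈ {u | ∃ c, u = c⁻¹ * g * c}, {W | x W g = v}) = Set.univ := by
        rw [Set.eq_univ_iff_forall]
        intro W
        simp only [Set.mem_iUnion]
        obtain ⟨c, hc⟩ := (hx W).1 {g}
        exact ⟨x W g, ⟨c, hc g (by simp)⟩, rfl⟩
      rw [this]
      exact Filter.univ_mem
    rw [Ultrafilter.finite_biUnion_mem_iff (hFC.fin g)] at hmem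
    obtain ⟨v, _, hv⟩ := hmem
    exact ⟨v, hv⟩
  choose φ hφ using hval
  have hLI : LI φ := by
    intro s
    have : ∀ᶠ W in (U : Filter (Finset G)), ∀ g ∈ s, x W g = φ g := by
      rw [Filter.eventually_all_finset]
      intro g _
      exact hφ g
    obtain ⟨W, hW⟩ := this.exists
    obtain ⟨c, hc⟩ := (hx W).1 s
    exact ⟨c, fun g hg => by rw [← hW g hg, hc g hg]⟩
  obtain ⟨y, hy⟩ := li_toMulAut hFC hLI
  have hyR : ∀ g, dl y g ∈ R := by
    intro g
    have h1 : ∀ᶠ W in (U : Filter (Finset G)), {g} ≤ W :=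
      (Filter.eventually_ge_atTop {g}).filter_mono hU
    obtain ⟨W, hW1, hW2⟩ := (h1.and (hφ g)).exists
    have := hxR W g (hW1 (Finset.mem_singleton_self g))
    unfold dl at this ⊢
    rw [hy, ← hW2]
    exact this
  refine ⟨y, ⟨?_, ?_⟩, ?_, hyR⟩
  · have : (y : G → G) = φ := funext hy
    rw [this]
    exact hLI
  · refine hR.subset ?_
    rintro _ ⟨g, rfl⟩
    exact hyR g
  · intro s hs
    obtain ⟨W, hW⟩ := (hφ s).exists
    rw [hy, ← hW]
    exact hxS W s hs

theorem lemmaB0 (hFC : FCG G) (R : Subgroup G) (hRn : R.Normal) (hR : (R : Set G).Finite) :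
    ∃ (W : Finset G) (K : Set (MulAut G)), K.Finite ∧ (∀ k ∈ K, k ∈ XX G) ∧
      ∀ H : Subgroup G, ↑W ⊆ (H : Set G) → ∀ x ∈ XX G, (∀ h ∈ H, dl x h ∈ R) →
        ∃ k ∈ K, ∀ h ∈ H, dl (k⁻¹ * x) h ∈ Subgroup.center G := by
  classical
  obtain ⟨S, hS⟩ := lemmaA hFC R hRn hR
  set TT : Set (S → G) := {σ | ∃ x ∈ XX G, ∀ s, σ s = x s.1} with hTT
  have hTf : TT.Finite := by
    refine (Set.Finite.pi' (fun s : S => hFC.fin s.1)).subset ?_
    rintro σ ⟨x, hx, hσ⟩ s
    obtain ⟨c, hc⟩ := hx.1 {s.1}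
    exact ⟨c, by rw [hσ s, hc _ (by simp)]⟩
  have hex : ∀ σ : S → G, ∃ (W : Finset G) (k : MulAut G), k ∈ XX G ∧
      (((∀ s, σ s = k s.1) ∧ ∀ g, dl k g ∈ R) ∨
        ∀ x ∈ XX G, (∀ s, σ s = x s.1) → ∃ w ∈ W, dl x w ∉ R) := by
    intro σ
    by_cases h : ∃ k ∈ XX G, (∀ s, σ s = k s.1) ∧ ∀ g, dl k g ∈ R
    · obtain ⟨k, hk, h1⟩ := h
      exact ⟨∅, k, hk, Or.inl h1⟩
    · have : ∃ W : Finset G, ∀ x ∈ XX G, (∀ s, σ s = x s.1) → ∃ w ∈ W, dl x w ∉ R := by
        by_contra hcon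
        push Not at hcon
        apply h
        obtain ⟨x, hx, hx1, hx2⟩ := compactness hFC S
          (fun g => if hg : g ∈ S then σ ⟨g, hg⟩ else 1) R hR (by
            intro W
            obtain ⟨x, hx, h1, h2⟩ := hcon W
            refine ⟨x, hx, fun s hs => ?_, h2⟩
            simp only [hs, dif_pos]
            exact (h1 ⟨s, hs⟩).symm)
        refine ⟨x, hx, fun s => ?_, hx2⟩
        rw [hx1 s.1 s.2]
        simp
      obtain ⟨W, hW⟩ := this
      exact ⟨W, 1, one_mem _, Or.inr hW⟩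
  choose Wf kf hkf hWk using hex
  refine ⟨S ∪ hTf.toFinset.biUnion Wf, kf '' TT, hTf.image _, ?_, ?_⟩
  · rintro _ ⟨σ, _, rfl⟩
    exact hkf σ
  · intro H hWH x hx hxR
    set σ : S → G := fun s => x s.1 with hσ
    have hσT : σ ∈ TT := ⟨x, hx, fun s => rfl⟩
    rcases hWk σ with ⟨h1, h2⟩ | h1
    · refine ⟨kf σ, ⟨σ, hσT, rfl⟩, ?_⟩
      apply hS H
      · intro s hs
        exact hWH (Finset.mem_coe.mpr (Finset.mem_union_left _ hs))
      · intro h hh
        rw [dl_mul, dl_inv]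
        refine mul_mem (inv_mem (h2 _)) ?_
        have hk := (inv_mem (hkf σ) : (kf σ)⁻¹ ∈ XX G)
        exact hk.1.normal hRn (hxR h hh)
      · intro s hs
        rw [MulAut.mul_apply]
        have := h1 ⟨s, hs⟩
        rw [hσ] at this
        simp only at this
        rw [this, MulAut.inv_apply_self]
    · obtain ⟨w, hw, hw'⟩ := h1 x hx (fun s => rfl)
      exfalso
      apply hw'
      apply hxR
      apply hWH
      rw [Finset.mem_coe]
      exact Finset.mem_union_right _ (Finset.mem_biUnion.mpr ⟨σ, hTf.mem_toFinset.mpr hσT, hw⟩)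

end li

end li0

end Pool.Agent.FCV
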