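import Pool.Agent.FCV.A9

set_option autoImplicit false

namespace Pool.Agent.FCV

open scoped commutatorElement Pointwise

section req

variable {G : Type} [Group G]

/-- labels -/
abbrev Om (G : Type) [Group G] : Type := G ⊕ MulAut G

/-- unary requirements -/
def U1 (a : Om G) (t : Set (Om G)) : Prop :=
  match a with
  | Sum.inl g => (Sum.inl g⁻¹ ∈ t) ∧ (∀ c : G, Sum.inl (c⁻¹ * g * c) ∈ t) ∧
      ∀ c : G, ∃ d : G, Sum.inl d ∈ t ∧ c⁻¹ * g * c = d⁻¹ * g * d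
  | Sum.inr x => x ∈ XX G → (Sum.inr x⁻¹ ∈ t) ∧ (∀ y ∈ XX G, Sum.inr (y⁻¹ * x * y) ∈ t) ∧
      (x ≠ 1 → ∃ g : G, Sum.inl g ∈ t ∧ x g ≠ g)

/-- binary requirements -/
def U2 (a b : Om G) (t : Set (Om G)) : Prop :=
  match a, b with
  | Sum.inl g, Sum.inl h => Sum.inl (g * h) ∈ t
  | Sum.inr x, Sum.inr y => Sum.inr (x * y) ∈ t
  | _, _ => True

/-- finite requirements -/
def U3 (s : Finset (Om G)) (t : Set (Om G)) : Prop :=
  ((Subgroup.normalClosure {g : G | (Sum.inl g : Om G) ∈ s} : Subgroup G) : Set G).Finite →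
    ∃ (W : Finset G) (K : Set (MulAut G)), K.Finite ∧ (∀ k ∈ K, k ∈ XX G) ∧
      (∀ H : Subgroup G, ↑W ⊆ (H : Set G) → ∀ x ∈ XX G,
        (∀ h ∈ H, dl x h ∈ Subgroup.normalClosure {g : G | (Sum.inl g : Om G) ∈ s}) →
        ∃ k ∈ K, ∀ h ∈ H, dl (k⁻¹ * x) h ∈ Subgroup.center G) ∧
      (∀ w ∈ W, Sum.inl w ∈ t) ∧ ∀ k ∈ K, Sum.inr k ∈ t

theorem U1.mono {a : Om G} {t t' : Set (Om G)} (h : t ⊆ t') (hu : U1 a t) : U1 a t' := by
  cases a with
  | inl g =>
    obtain ⟨h1, h2, h3⟩ := hu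
    refine ⟨h h1, fun c => h (h2 c), fun c => ?_⟩
    obtain ⟨d, hd, hd'⟩ := h3 c
    exact ⟨d, h hd, hd'⟩
  | inr x =>
    intro hx
    obtain ⟨h1, h2, h3⟩ := hu hx
    refine ⟨h h1, fun y hy => h (h2 y hy), fun hne => ?_⟩
    obtain ⟨g, hg, hg'⟩ := h3 hne
    exact ⟨g, h hg, hg'⟩

theorem U2.mono {a b : Om G} {t t' : Set (Om G)} (h : t ⊆ t') (hu : U2 a b t) : U2 a b t' := by
  cases a <;> cases b
  · exact h hu
  · trivial
  · trivial
  · exact h hu

theorem U3.mono {s : Finset (Om G)} {t t' : Set (Om G)} (h : t ⊆ t') (hu : U3 s t) : U3 s t' := by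
  intro hf
  obtain ⟨W, K, h1, h2, h3, h4, h5⟩ := hu hf
  exact ⟨W, K, h1, h2, h3, fun w hw => h (h4 w hw), fun k hk => h (h5 k hk)⟩

theorem exU1 (hFC : FCG G) (a : Om G) : ∃ t : Set (Om G), t.Countable ∧ U1 a t := by
  classical
  cases a with
  | inl g =>
    have h1 : ∀ u : {u | ∃ c, u = c⁻¹ * g * c}, ∃ d, u.1 = d⁻¹ * g * d := fun u => u.2
    choose d hd using h1
    have := (hFC.fin g).to_subtype
    refine ⟨{Sum.inl g⁻¹} ∪ (Sum.inl '' {u | ∃ c, u = c⁻¹ * g * c}) ∪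
      (Sum.inl '' Set.range d), ?_, ?_, ?_, ?_⟩
    · exact (((Set.finite_singleton _).union ((hFC.fin g).image _)).union
        ((Set.finite_range d).image _)).countable
    · exact Or.inl (Or.inl rfl)
    · intro c
      exact Or.inl (Or.inr ⟨_, ⟨c, rfl⟩, rfl⟩)
    · intro c
      exact ⟨d ⟨c⁻¹ * g * c, c, rfl⟩, Or.inr ⟨_, ⟨_, rfl⟩, rfl⟩, hd ⟨c⁻¹ * g * c, c, rfl⟩⟩
  | inr x =>
    by_cases hx : x ∈ XX G
    · have h1 : ∃ g : G, x ≠ 1 → x g ≠ g := by
        by_contra hcon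
        push Not at hcon
        obtain ⟨hne, _⟩ := hcon 1
        apply hne
        ext g
        exact (hcon g).2
      obtain ⟨g, hg⟩ := h1
      refine ⟨{Sum.inr x⁻¹} ∪ (Sum.inr '' {w | ∃ y ∈ XX G, w = y⁻¹ * x * y}) ∪ {Sum.inl g}, ?_,
        fun _ => ⟨?_, ?_, ?_⟩⟩
      · exact (((Set.finite_singleton _).union ((XX_classes hx).image _)).union
          (Set.finite_singleton _)).countable
      · exact Or.inl (Or.inl rfl)
      · intro y hy
        exact Or.inl (Or.inr ⟨_, ⟨y, hy, rfl⟩, rfl⟩)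
      · intro hne
        exact ⟨g, Or.inr rfl, hg hne⟩
    · exact ⟨∅, Set.countable_empty, fun h => absurd h hx⟩

theorem exU2 (a b : Om G) : ∃ t : Set (Om G), t.Countable ∧ U2 a b t := by
  cases a <;> cases b
  · exact ⟨{Sum.inl _}, Set.countable_singleton _, rfl⟩
  · exact ⟨∅, Set.countable_empty, trivial⟩
  · exact ⟨∅, Set.countable_empty, trivial⟩
  · exact ⟨{Sum.inr _}, Set.countable_singleton _, rfl⟩

theorem exU3 (hFC : FCG G) (s : Finset (Om G)) : ∃ t : Set (Om G), t.Countable ∧ U3 s t := by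
  by_cases hf : ((Subgroup.normalClosure {g : G | (Sum.inl g : Om G) ∈ s} : Subgroup G) :
      Set G).Finite
  · obtain ⟨W, K, h1, h2, h3⟩ := lemmaB0 hFC _ Subgroup.normalClosure_normal hf
    refine ⟨(Sum.inl '' (W : Set G)) ∪ (Sum.inr '' K), ?_, fun _ => ⟨W, K, h1, h2, h3, ?_, ?_⟩⟩
    · exact ((W.finite_toSet.image _).union (h1.image _)).countable
    · intro w hw
      exact Or.inl ⟨w, hw, rfl⟩
    · intro k hk
      exact Or.inr ⟨k, hk, rfl⟩
  · exact ⟨∅, Set.countable_empty, fun h => absurd h hf⟩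

/-- all requirements -/
def Req (s : Finset (Om G)) (t : Set (Om G)) : Prop :=
  Sum.inl 1 ∈ t ∧ Sum.inr 1 ∈ t ∧ (∀ a ∈ s, U1 a t) ∧ (∀ a ∈ s, ∀ b ∈ s, U2 a b t) ∧ U3 s t

theorem exReq (hFC : FCG G) (s : Finset (Om G)) :
    ∃ t : Set (Om G), t.Countable ∧ Req s t := by
  choose t1 h1 h1' using exU1 hFC
  choose t2 h2 h2' using (exU2 : ∀ a b : Om G, _)
  obtain ⟨t3, h3, h3'⟩ := exU3 hFC s
  set t : Set (Om G) := {Sum.inl 1, Sum.inr 1} ∪ (⋃ a ∈ (s : Set (Om G)), t1 a) ∪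
    (⋃ a ∈ (s : Set (Om G)), ⋃ b ∈ (s : Set (Om G)), t2 a b) ∪ t3 with ht
  have hs1 : ∀ a ∈ s, t1 a ⊆ t := by
    intro a ha x hx
    refine Or.inl (Or.inl (Or.inr ?_))
    exact Set.mem_biUnion (x := a) ha hx
  have hs2 : ∀ a ∈ s, ∀ b ∈ s, t2 a b ⊆ t := by
    intro a ha b hb x hx
    refine Or.inl (Or.inr ?_)
    exact Set.mem_biUnion (x := a) ha (Set.mem_biUnion (x := b) hb hx)
  refine ⟨t, ?_, ?_, ?_, ?_, ?_, ?_⟩
  · refine (((Set.toFinite {Sum.inl 1, Sum.inr 1}).countable.union ?_).union ?_).union h3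
    · exact Set.Countable.biUnion s.countable_toSet (fun a _ => h1 a)
    · exact Set.Countable.biUnion s.countable_toSet (fun a _ =>
        Set.Countable.biUnion s.countable_toSet (fun b _ => h2 a b))
  · exact Or.inl (Or.inl (Or.inl (Or.inl rfl)))
  · exact Or.inl (Or.inl (Or.inl (Or.inr rfl)))
  · intro a ha
    exact (h1' a).mono (hs1 a ha)
  · intro a ha b hb
    exact (h2' a b).mono (hs2 a ha b hb)
  · exact h3'.mono (fun x hx => Or.inr hx)

/-- the closure operation -/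
noncomputable def FF (hFC : FCG G) (s : Finset (Om G)) : Set (Om G) := (exReq hFC s).choose

theorem FF_countable (hFC : FCG G) (s : Finset (Om G)) : (FF hFC s).Countable :=
  (exReq hFC s).choose_spec.1

theorem FF_req (hFC : FCG G) (s : Finset (Om G)) : Req s (FF hFC s) :=
  (exReq hFC s).choose_spec.2

section closed

variable {hFC : FCG G} {C : Set (Om G)} (hC : Closed (FF hFC) C)
include hC

theorem c_U1 {a : Om G} (ha : a ∈ C) : U1 a C := by
  have := (FF_req hFC {a}).2.2.1 a (by simp)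
  exact this.mono (hC {a} (by simpa using ha))

theorem c_U2 {a b : Om G} (ha : a ∈ C) (hb : b ∈ C) : U2 a b C := by
  classical
  have := (FF_req hFC {a, b}).2.2.2.1 a (by simp) b (by simp)
  refine this.mono (hC {a, b} ?_)
  intro x hx
  simp only [Finset.coe_insert, Finset.coe_singleton, Set.mem_insert_iff,
    Set.mem_singleton_iff] at hx
  rcases hx with rfl | rfl
  · exact ha
  · exact hb

theorem c_U3 {s : Finset (Om G)} (hs : ↑s ⊆ C) : U3 s C :=
  (FF_req hFC s).2.2.2.2.mono (hC s hs)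

theorem c_g1 : (Sum.inl 1 : Om G) ∈ C := hC ∅ (by simp) (FF_req hFC ∅).1

theorem c_x1 : (Sum.inr 1 : Om G) ∈ C := hC ∅ (by simp) (FF_req hFC ∅).2.1

/-- the normal subgroup of `G` -/
def HH : Subgroup G where
  carrier := {g | (Sum.inl g : Om G) ∈ C}
  one_mem' := c_g1 hC
  mul_mem' := fun {a b} ha hb => c_U2 hC ha hb
  inv_mem' := fun {a} ha => (c_U1 hC ha).1

theorem HH_normal : (HH hC).Normal := by
  refine ⟨?_⟩
  intro g hg c
  have := (c_U1 hC (a := Sum.inl g) hg).2.1 c⁻¹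
  rw [inv_inv] at this
  exact this

theorem c_conj {g : G} (hg : (Sum.inl g : Om G) ∈ C) (c : G) :
    ∃ d : G, (Sum.inl d : Om G) ∈ C ∧ c⁻¹ * g * c = d⁻¹ * g * d := (c_U1 hC hg).2.2 c

theorem c_exK {x : MulAut G} (hx : x ∈ XX G) : ∃ k ∈ XX G, (Sum.inr k : Om G) ∈ C ∧
    ∀ h : G, (Sum.inl h : Om G) ∈ C → dl (k⁻¹ * x) h ∈ Subgroup.center G := by
  classical
  have hH := HH_normal hC
  have hfin : ((dl x) '' (HH hC : Set G)).Finite := hx.2.subset (Set.image_subset_range _ _)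
  set s : Finset (Om G) := hfin.toFinset.image Sum.inl with hs
  have hsC : ↑s ⊆ C := by
    intro a ha
    simp only [hs, Finset.coe_image, Set.mem_image, Finset.mem_coe, Set.Finite.mem_toFinset] at ha
    obtain ⟨u, ⟨h, hh, rfl⟩, rfl⟩ := ha
    exact hx.1.dl_normal hH hh
  have hset : {g : G | (Sum.inl g : Om G) ∈ s} = (dl x) '' (HH hC : Set G) := by
    ext g
    simp [hs]
  have hnc : ((Subgroup.normalClosure {g : G | (Sum.inl g : Om G) ∈ s} : Subgroup G) :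
      Set G).Finite := by
    rw [hset]
    apply hFC.nc_comm_finite _ hfin
    rintro _ ⟨h, _, rfl⟩
    exact hx.1.dl_comm h
  obtain ⟨W, K, h1, h2, h3, h4, h5⟩ := c_U3 hC hsC hnc
  obtain ⟨k, hk, hk'⟩ := h3 (HH hC) (fun w hw => h4 w hw) x hx (by
    intro h hh
    apply Subgroup.subset_normalClosure
    rw [hset]
    exact ⟨h, hh, rfl⟩)
  exact ⟨k, h2 k hk, h5 k hk, fun h hh => hk' h hh⟩

theorem c_comm {l : MulAut G} (hl : l ∈ XX G) (hlC : (Sum.inr l : Om G) ∈ C) {w : MulAut G}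
    (hw : w ∈ XX G) (hwz : ∀ h : G, (Sum.inl h : Om G) ∈ C → dl w h ∈ Subgroup.center G) :
    l * w = w * l := by
  have h1 : (Sum.inr (w⁻¹ * l * w) : Om G) ∈ C := (c_U1 hC hlC hl).2.1 w hw
  have h2 : (Sum.inr l⁻¹ : Om G) ∈ C := (c_U1 hC hlC hl).1
  have h3 : (Sum.inr (l⁻¹ * (w⁻¹ * l * w)) : Om G) ∈ C := c_U2 hC h2 h1
  have h4 : l⁻¹ * (w⁻¹ * l * w) ∈ XX G :=
    mul_mem (inv_mem hl) (mul_mem (mul_mem (inv_mem hw) hl) hw)
  have h5 : l⁻¹ * (w⁻¹ * l * w) = 1 := by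
    by_contra hne
    obtain ⟨h, hh, hh'⟩ := (c_U1 hC h3 h4).2.2 hne
    apply hh'
    have hz := hwz h hh
    obtain ⟨c, hc⟩ := hl.1 {h}
    have hc' := hc h (by simp)
    obtain ⟨d, hd, hd'⟩ := c_conj hC hh c
    have hzd := hwz d hd
    -- compute
    have e1 : w h = h * dl w h := dl_eq w h
    have e2 : w d = d * dl w d := dl_eq w d
    have e3 : l (w h) = l h * dl w h := by
      rw [e1, map_mul, hl.1.center hz]
    have e4 : w (l h) = l h * dl w h := by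
      rw [hc', hd', map_mul, map_mul, map_inv, e1, e2]
      have z1 := Subgroup.mem_center_iff.mp hzd
      have z2 := Subgroup.mem_center_iff.mp hz
      calc (d * dl w d)⁻¹ * (h * dl w h) * (d * dl w d)
          = (dl w d)⁻¹ * (d⁻¹ * h * dl w h * d * dl w d) := by group
        _ = (dl w d)⁻¹ * (dl w d * (d⁻¹ * h * dl w h * d)) := by rw [← z1]
        _ = d⁻¹ * h * (dl w h * d) := by group
        _ = d⁻¹ * h * (d * dl w h) := by rw [← z2]
        _ = _ := by group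
    show l⁻¹ (w⁻¹ (l (w h))) = h
    rw [e3, ← e4, MulAut.inv_apply_self, MulAut.inv_apply_self]
  calc l * w = w * l * (l⁻¹ * (w⁻¹ * l * w)) := by group
    _ = w * l := by rw [h5, mul_one]

end closed

end req

end Pool.Agent.FCV
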