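import Pool.Agent.FCV.A10

set_option autoImplicit false

namespace Pool.Agent.FCV

open scoped commutatorElement Pointwise

section pkg

variable {G : Type} [Group G]

/-- the completion data -/
structure Comp {T : Type} [Group T] (i : G →* T) (s : XX G → T) : Prop where
  inj : Function.Injective i
  act : ∀ x g, (s x)⁻¹ * i g * s x = i (x.1 g)
  fin : ∀ x, ∃ F : Set G, F.Finite ∧ (∀ t ∈ F, t ∈ commutator G) ∧
        ∀ y, ∃ t ∈ F, (s x)⁻¹ * (s y)⁻¹ * s x * s y = i t
  gen : Subgroup.closure (Set.range i ∪ Set.range s) = ⊤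

theorem exists_Comp : ∃ (T : Type) (_ : Group T) (i : G →* T) (s : XX G → T), Comp i s := by
  obtain ⟨P, _, i, s, h1, h2, h3⟩ := exists_P (G := G)
  set T : Subgroup P := Subgroup.closure (Set.range i ∪ Set.range s) with hT
  have hi : ∀ g, i g ∈ T := fun g => Subgroup.subset_closure (Or.inl ⟨g, rfl⟩)
  have hs : ∀ x, s x ∈ T := fun x => Subgroup.subset_closure (Or.inr ⟨x, rfl⟩)
  refine ⟨T, inferInstance, i.codRestrict T hi, fun x => ⟨s x, hs x⟩, ?_, ?_, ?_, ?_⟩
  · intro a b hab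
    exact h1 (congrArg Subtype.val hab)
  · intro x g
    exact Subtype.ext (h2 x g)
  · intro x
    obtain ⟨F, hF, hF', hF''⟩ := h3 x
    refine ⟨F, hF, hF', fun y => ?_⟩
    obtain ⟨t, ht, ht'⟩ := hF'' y
    exact ⟨t, ht, Subtype.ext ht'⟩
  · have h4 := Subgroup.closure_closure_coe_preimage (k := Set.range i ∪ Set.range s)
    rw [← h4]
    congr 1
    ext ⟨t, ht⟩
    simp only [Set.mem_union, Set.mem_range, Set.mem_preimage]
    constructor
    · rintro (⟨g, hg⟩ | ⟨x, hx⟩)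
      · exact Or.inl ⟨g, congrArg Subtype.val hg⟩
      · exact Or.inr ⟨x, congrArg Subtype.val hx⟩
    · rintro (⟨g, hg⟩ | ⟨x, hx⟩)
      · exact Or.inl ⟨g, Subtype.ext hg⟩
      · exact Or.inr ⟨x, Subtype.ext hx⟩

/-- elements with finitely many conjugates -/
def fcE (T : Type) [Group T] : Subgroup T where
  carrier := {g | {u | ∃ c, u = c⁻¹ * g * c}.Finite}
  one_mem' := by
    refine (Set.finite_singleton (1 : T)).subset ?_
    rintro _ ⟨c, rfl⟩
    simp
  mul_mem' := by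
    intro a b ha hb
    refine (ha.mul hb).subset ?_
    rintro _ ⟨c, rfl⟩
    refine Set.mem_mul.mpr ⟨_, ⟨c, rfl⟩, _, ⟨c, rfl⟩, ?_⟩
    group
  inv_mem' := by
    intro a ha
    refine ha.inv.subset ?_
    rintro _ ⟨c, rfl⟩
    refine Set.mem_inv.mpr ⟨c, ?_⟩
    group

theorem fcE_top {T : Type} [Group T] (h : fcE T = ⊤) : FCG T := by
  intro g
  have hg : g ∈ fcE T := by rw [h]; trivial
  refine Set.Finite.subset hg ?_
  intro u hu
  obtain ⟨c, hc⟩ := isConj_iff.mp hu
  exact ⟨c⁻¹, by rw [← hc]; simp⟩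

variable {T : Type} [Group T] {i : G →* T} {s : XX G → T}

/-- every element acts as an element of `XX` -/
theorem Comp.act' (hc : Comp i s) (hFC : FCG G) (t : T) :
    ∃ x : XX G, ∀ g, t⁻¹ * i g * t = i (x.1 g) := by
  have ht : t ∈ Subgroup.closure (Set.range i ∪ Set.range s) := by rw [hc.gen]; trivial
  induction ht using Subgroup.closure_induction with
  | mem t ht =>
    rcases ht with ⟨a, rfl⟩ | ⟨x, rfl⟩
    · refine ⟨⟨MulAut.conj a⁻¹, conj_mem_XX hFC _⟩, fun g => ?_⟩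
      rw [MulAut.conj_apply, inv_inv, map_mul, map_mul, map_inv]
    · exact ⟨x, fun g => hc.act x g⟩
  | one => exact ⟨1, fun g => by simp⟩
  | mul t u _ _ ht hu =>
    obtain ⟨x, hx⟩ := ht
    obtain ⟨y, hy⟩ := hu
    refine ⟨y * x, fun g => ?_⟩
    calc (t * u)⁻¹ * i g * (t * u) = u⁻¹ * (t⁻¹ * i g * t) * u := by group
      _ = i ((y * x).1 g) := by rw [hx, hy]; rfl
  | inv t _ ht =>
    obtain ⟨x, hx⟩ := ht
    refine ⟨x⁻¹, fun g => ?_⟩
    have h1 := hx ((x.1)⁻¹ g)
    rw [MulAut.apply_inv_self] at h1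
    rw [← h1]
    show (t⁻¹)⁻¹ * (t⁻¹ * i ((x.1)⁻¹ g) * t) * t⁻¹ = i ((x⁻¹ : XX G).1 g)
    have : (x⁻¹ : XX G).1 = (x.1)⁻¹ := rfl
    rw [this]; group

theorem Comp.normal_map (hc : Comp i s) (hFC : FCG G) (R : Subgroup G) (hR : R.Normal) :
    (R.map i).Normal := by
  refine ⟨?_⟩
  rintro _ ⟨r, hr, rfl⟩ t
  obtain ⟨x, hx⟩ := hc.act' hFC t⁻¹
  have := hx r
  rw [inv_inv] at this
  rw [this]
  exact ⟨_, x.2.1.normal hR hr, rfl⟩

theorem cmod' {K : Type} [Group K] (A : Subgroup K) [A.Normal] (k y : K) :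
    y ∈ cmod A k ↔ k⁻¹ * y⁻¹ * k * y ∈ A := by
  rw [mem_cmod, commutatorElement_def]
  constructor
  · intro h
    have h1 := (inferInstance : A.Normal).conj_mem _ h (k⁻¹ * y⁻¹)
    have h2 : k⁻¹ * y⁻¹ * (k * y * k⁻¹ * y⁻¹) * (k⁻¹ * y⁻¹)⁻¹ = k⁻¹ * y⁻¹ * k * y := by group
    rwa [h2] at h1
  · intro h
    have h1 := (inferInstance : A.Normal).conj_mem _ h (y * k)
    have h2 : y * k * (k⁻¹ * y⁻¹ * k * y) * (y * k)⁻¹ = k * y * k⁻¹ * y⁻¹ := by group
    rwa [h2] at h1

theorem cmod_symm {K : Type} [Group K] (A : Subgroup K) [A.Normal] (k y : K) :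
    y ∈ cmod A k ↔ k ∈ cmod A y := by
  rw [mem_cmod, mem_cmod, ← commutatorElement_inv, inv_mem_iff]

/-- The completion is an FC-group. -/
theorem Comp.FC (hc : Comp i s) (hFC : FCG G) : FCG T := by
  apply fcE_top
  rw [eq_top_iff, ← hc.gen, Subgroup.closure_le]
  rintro _ (⟨g, rfl⟩ | ⟨x, rfl⟩)
  · refine ((hFC.fin g).image i).subset ?_
    rintro _ ⟨t, rfl⟩
    obtain ⟨x, hx⟩ := hc.act' hFC t
    obtain ⟨c, hc'⟩ := x.2.1 {g}
    exact ⟨x.1 g, ⟨c, hc' g (by simp)⟩, (hx g).symm⟩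
  · obtain ⟨F, hF, hF', hF''⟩ := hc.fin x
    set R : Subgroup G := Subgroup.normalClosure (F ∪ Set.range (dl x.1)) with hR
    have hRn : R.Normal := Subgroup.normalClosure_normal
    have hRf : (R : Set G).Finite := by
      apply hFC.nc_comm_finite _ (hF.union x.2.2)
      rintro t (ht | ⟨g, rfl⟩)
      · exact hF' t ht
      · exact x.2.1.dl_comm g
    have hRn' := hc.normal_map hFC R hRn
    have key : ∀ t : T, (s x)⁻¹ * t⁻¹ * s x * t ∈ R.map i := by
      have h1 : (⊤ : Subgroup T) ≤ cmod (R.map i) (s x) := by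
        rw [← hc.gen, Subgroup.closure_le]
        rintro _ (⟨g, rfl⟩ | ⟨y, rfl⟩)
        · rw [SetLike.mem_coe, cmod']
          refine ⟨(dl x.1 g)⁻¹, inv_mem (Subgroup.subset_normalClosure (Or.inr ⟨g, rfl⟩)), ?_⟩
          have : (s x)⁻¹ * (i g)⁻¹ * s x * i g = i (x.1 g⁻¹) * i g := by
            rw [← hc.act, map_inv]
          rw [this, ← map_mul]
          congr 1
          unfold dl
          rw [map_inv]; group
        · rw [SetLike.mem_coe, cmod']
          obtain ⟨t, ht, ht'⟩ := hF'' y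
          rw [ht']
          exact ⟨t, Subgroup.subset_normalClosure (Or.inl ht), rfl⟩
      intro t
      exact (cmod' _ _ _).mp (h1 trivial)
    have hRif : ((R.map i : Subgroup T) : Set T).Finite := hRf.image i
    refine ((hRif.image (fun r => s x * r))).subset ?_
    rintro _ ⟨t, rfl⟩
    refine ⟨_, key t, ?_⟩
    group

/-- commutators lie in the image of `G` -/
theorem Comp.comm_range (hc : Comp i s) (hFC : FCG G) (t u : T) :
    t⁻¹ * u⁻¹ * t * u ∈ i.range := by
  have hn : (i.range).Normal := by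
    have := hc.normal_map hFC ⊤ inferInstance
    rwa [← MonoidHom.range_eq_map] at this
  have h0 : ∀ a ∈ Set.range i ∪ Set.range s, ∀ b ∈ Set.range i ∪ Set.range s,
      b ∈ cmod i.range a := by
    rintro a ha b hb
    rcases ha with ⟨g, rfl⟩ | ⟨x, rfl⟩
    · rw [mem_cmod, commutatorElement_def, mul_assoc, mul_assoc]
      refine mul_mem ⟨g, rfl⟩ ?_
      have := hn.conj_mem (i g)⁻¹ (inv_mem ⟨g, rfl⟩) b
      rwa [mul_assoc] at this
    · rcases hb with ⟨g, rfl⟩ | ⟨y, rfl⟩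
      · rw [mem_cmod, commutatorElement_def]
        exact mul_mem (hn.conj_mem _ ⟨g, rfl⟩ _) (inv_mem ⟨g, rfl⟩)
      · rw [cmod']
        obtain ⟨F, _, _, hF⟩ := hc.fin x
        obtain ⟨t, _, ht'⟩ := hF y
        rw [ht']
        exact ⟨t, rfl⟩
  have h1 : ∀ a ∈ Set.range i ∪ Set.range s, ∀ t : T, t ∈ cmod i.range a := by
    intro a ha t
    have : (⊤ : Subgroup T) ≤ cmod i.range a := by
      rw [← hc.gen, Subgroup.closure_le]
      exact h0 a ha
    exact this trivial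
  have h2 : ∀ t u : T, u ∈ cmod i.range t := by
    intro t u
    have : (⊤ : Subgroup T) ≤ cmod i.range t := by
      rw [← hc.gen, Subgroup.closure_le]
      intro a ha
      rw [SetLike.mem_coe, cmod_symm]
      exact h1 a ha t
    exact this trivial
  exact (cmod' _ _ _).mp (h2 t u)

/-- the image of the centre is central -/
theorem Comp.central (hc : Comp i s) (hFC : FCG G) {z : G} (hz : z ∈ Subgroup.center G) :
    i z ∈ Subgroup.center T := by
  rw [Subgroup.mem_center_iff]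
  intro t
  obtain ⟨x, hx⟩ := hc.act' hFC t
  have h1 := hx z
  rw [x.2.1.center hz] at h1
  calc t * i z = t * (t⁻¹ * i z * t) := by rw [h1]
    _ = i z * t := by group

/-- the subgroup attached to a set of labels -/
def TT (i : G →* T) (s : XX G → T) (C : Set (Om G)) : Subgroup T :=
  Subgroup.closure ({t | ∃ g : G, (Sum.inl g : Om G) ∈ C ∧ t = i g} ∪
    {t | ∃ x : XX G, (Sum.inr x.1 : Om G) ∈ C ∧ t = s x})

theorem TT_g {C : Set (Om G)} {g : G} (hg : (Sum.inl g : Om G) ∈ C) : i g ∈ TT i s C :=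
  Subgroup.subset_closure (Or.inl ⟨g, hg, rfl⟩)

theorem TT_x {C : Set (Om G)} {x : XX G} (hx : (Sum.inr x.1 : Om G) ∈ C) : s x ∈ TT i s C :=
  Subgroup.subset_closure (Or.inr ⟨x, hx, rfl⟩)

theorem TT_mono {C C' : Set (Om G)} (h : C ⊆ C') : TT i s C ≤ TT i s C' := by
  unfold TT
  rw [Subgroup.closure_le]
  rintro _ (⟨g, hg, rfl⟩ | ⟨x, hx, rfl⟩)
  · exact TT_g (h hg)
  · exact TT_x (h hx)

theorem TT_fin {C : Set (Om G)} {t : T} (ht : t ∈ TT i s C) :
    ∃ S : Finset (Om G), ↑S ⊆ C ∧ t ∈ TT i s (S : Set (Om G)) := by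
  classical
  unfold TT at ht
  induction ht using Subgroup.closure_induction with
  | mem t ht =>
    rcases ht with ⟨g, hg, rfl⟩ | ⟨x, hx, rfl⟩
    · exact ⟨{Sum.inl g}, by simpa using hg, TT_g (by simp)⟩
    · exact ⟨{Sum.inr x.1}, by simpa using hx, TT_x (by simp)⟩
  | one => exact ⟨∅, by simp, one_mem _⟩
  | mul t u _ _ ht hu =>
    obtain ⟨S, hS, hS'⟩ := ht
    obtain ⟨S', hS1, hS1'⟩ := hu
    refine ⟨S ∪ S', by simp [hS, hS1], mul_mem (TT_mono (by simp) hS') (TT_mono (by simp) hS1')⟩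
  | inv t _ ht =>
    obtain ⟨S, hS, hS'⟩ := ht
    exact ⟨S, hS, inv_mem hS'⟩

theorem closure_ctbl {S : Set T} (hS : S.Countable) : Countable (Subgroup.closure S) := by
  have := hS.to_subtype
  have h1 : Subgroup.closure S ≤ (FreeGroup.lift (Subtype.val : S → T)).range := by
    rw [Subgroup.closure_le]
    intro x hx
    exact ⟨FreeGroup.of ⟨x, hx⟩, by simp⟩
  have h2 : (((FreeGroup.lift (Subtype.val : S → T)).range : Subgroup T) : Set T).Countable :=
    Set.countable_range _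
  exact (h2.mono h1).to_subtype

theorem TT_countable {C : Set (Om G)} (hC : C.Countable) : Countable (TT i s C) := by
  have h1 : ({t | ∃ g : G, (Sum.inl g : Om G) ∈ C ∧ t = i g} ∪
    {t | ∃ x : XX G, (Sum.inr x.1 : Om G) ∈ C ∧ t = s x} : Set T).Countable := by
    refine Set.Countable.union ?_ ?_
    · have h2 : {g : G | (Sum.inl g : Om G) ∈ C}.Countable :=
        Set.Countable.preimage_of_injOn hC (fun a _ b _ h => Sum.inl_injective h)
      refine (h2.image i).mono ?_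
      rintro _ ⟨g, hg, rfl⟩
      exact ⟨g, hg, rfl⟩
    · have h2 : {x : XX G | (Sum.inr x.1 : Om G) ∈ C}.Countable :=
        Set.Countable.preimage_of_injOn hC
          (f := fun x : XX G => (Sum.inr x.1 : Om G))
          (fun a _ b _ h => Subtype.ext (Sum.inr_injective h))
      refine (h2.image s).mono ?_
      rintro _ ⟨x, hx, rfl⟩
      exact ⟨x, hx, rfl⟩
  exact closure_ctbl h1

end pkg

end Pool.Agent.FCV
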