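import Pool.Agent.FCV.A11

set_option autoImplicit false

namespace Pool.Agent.FCV

open scoped commutatorElement Pointwise
open Cardinal

section fin

variable {C : ∀ (G : Type) [Group G], Prop}

theorem lemF' (hC : Var C) {T : Type} [Group T] (hT : FCG T) (S : Subgroup T) {ι : Type}
    (B : ι → Subgroup T) (hBS : ∀ i, B i ≤ S) (hgen : S ≤ ⨆ i, B i) (hB : ∀ i, C (B i))
    (hc : ∀ i j, i ≠ j → ∀ b ∈ B i, ∀ b' ∈ B j, ⁅b, b'⁆ ∈ Subgroup.center T) : C S := by
  refine lemF (T := S) (B := fun i => (B i).subgroupOf S) hC (hT.sub S) ?_ ?_ ?_
  · intro i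
    exact hC.inj (Subgroup.subgroupOfEquivOfLe (hBS i)).toMonoidHom
      (Subgroup.subgroupOfEquivOfLe (hBS i)).injective (hB i)
  · intro i j hij b hb b' hb'
    have h1 := hc i j hij b.1 hb b'.1 hb'
    rw [Subgroup.mem_center_iff] at h1 ⊢
    intro g
    exact Subtype.ext (h1 g.1)
  · rw [eq_top_iff]
    intro x _
    have h1 : (⨆ i, (B i).subgroupOf S).map S.subtype = ⨆ i, B i := by
      rw [Subgroup.map_iSup]
      congr 1
      funext i
      rw [Subgroup.subgroupOf_map_subtype]
      exact inf_eq_left.mpr (hBS i)
    have h2 : x.1 ∈ (⨆ i, (B i).subgroupOf S).map S.subtype := by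
      rw [h1]
      exact hgen x.2
    obtain ⟨y, hy, hyx⟩ := h2
    have : y = x := Subtype.ext hyx
    rw [← this]
    exact hy

variable {G : Type} [Group G] {T : Type} [Group T] {i : G →* T} {s : XX G → T}

theorem Comp.mem (hC : Var C) (hc : Comp i s) (hFC : FCG G) :
    ∀ C', Closed (FF hFC) C' → C (TT i s C') := by
  classical
  suffices h : ∀ κ : Cardinal.{0}, ∀ C' : Set (Om G), Closed (FF hFC) C' → #C' = κ →
      C (TT i s C') from fun C' hC' => h _ C' hC' rfl
  intro κ
  induction κ using WellFoundedLT.induction with
  | ind κ ih =>
    intro C' hC' hκ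
    have hTFC := hc.FC hFC
    rcases le_or_gt κ ℵ₀ with hle | hgt
    · have hcount : C'.Countable := by
        rw [← le_aleph0_iff_set_countable, hκ]
        exact hle
      have := TT_countable (i := i) (s := s) hcount
      exact countable_case hC (hTFC.sub _)
    · obtain ⟨_, _, hord⟩ := exists_ord_eq_type_lt C'
      let D : C' → Set (Om G) := fun i => cl (FF hFC) (Subtype.val '' Set.Iic i)
      have hDclosed : ∀ i, Closed (FF hFC) (D i) := fun i => cl_closed _
      have hDC : ∀ i, D i ⊆ C' := fun i => cl_min hC' (by rintro _ ⟨x, _, rfl⟩; exact x.2)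
      have hDmem : ∀ i : C', i.1 ∈ D i := fun i => subset_cl _ ⟨i, le_refl i, rfl⟩
      have hDmono : ∀ i j, i ≤ j → D i ⊆ D j := by
        intro i j hij
        apply cl_min (hDclosed j)
        refine subset_trans (Set.image_mono ?_) (subset_cl _)
        exact Set.Iic_subset_Iic.mpr hij
      have hDcard : ∀ i, #(D i) < κ := by
        intro i
        refine (mk_cl_le (FF_countable hFC) _).trans_lt ?_
        apply max_lt hgt
        refine (mk_image_le).trans_lt ?_
        rw [← hκ]
        exact mk_Iic_lt i hord (by rw [hκ]; exact hgt.le)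
      -- the central subgroup
      set A : Subgroup T := (Subgroup.center G).map i with hA
      have hAn : A.Normal := hc.normal_map hFC _ inferInstance
      have hAc : A ≤ Subgroup.center T := by
        rintro _ ⟨z, hz, rfl⟩
        exact hc.central hFC hz
      let B : C' → Subgroup T := fun a =>
        TT i s (D a) ⊓ ⨅ (b : {b // b < a}), ⨅ (t : TT i s (D b.1)), cmod A t.1
      have hBmem : ∀ a u, u ∈ B a ↔ u ∈ TT i s (D a) ∧ ∀ b < a, ∀ t ∈ TT i s (D b),
          u ∈ cmod A t := by
        intro a u
        constructor
        · rintro ⟨h1, h2⟩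
          refine ⟨h1, fun b hb t ht => ?_⟩
          exact Subgroup.mem_iInf.mp (Subgroup.mem_iInf.mp h2 ⟨b, hb⟩) ⟨t, ht⟩
        · rintro ⟨h1, h2⟩
          refine ⟨h1, ?_⟩
          refine Subgroup.mem_iInf.mpr (fun b => Subgroup.mem_iInf.mpr (fun t => ?_))
          exact h2 b.1 b.2 t.1 t.2
      have key : ∀ a, TT i s (D a) ≤ ⨆ b, B b := by
        intro a
        induction a using WellFoundedLT.induction with
        | ind a iha =>
          intro t ht
          by_cases hex : ∃ b, b < a
          · obtain ⟨b0, hb0⟩ := hex
            have hdir : Directed (· ⊆ ·) (fun j : {j // j < a} => D j) := by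
              intro x y
              refine ⟨⟨max x.1 y.1, max_lt x.2 y.2⟩, hDmono _ _ (le_max_left _ _),
                hDmono _ _ (le_max_right _ _)⟩
            set E : Set (Om G) := ⋃ j : {j // j < a}, D j with hE
            have hEcl : Closed (FF hFC) E := by
              intro S hS
              have : ∃ j : {j // j < a}, ↑S ⊆ D j := by
                have : Nonempty {j // j < a} := ⟨⟨b0, hb0⟩⟩
                exact hdir.exists_mem_subset_of_finset_subset_biUnion hS
              obtain ⟨j, hj⟩ := this
              exact (hDclosed j S hj).trans (Set.subset_iUnion (fun j : {j // j < a} => D j) j)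
            obtain ⟨x, hx⟩ := hc.act' hFC t
            obtain ⟨k, hk, hkE, hkz⟩ := c_exK hEcl x.2
            set w : MulAut G := k⁻¹ * x.1 with hw
            have hwX : w ∈ XX G := mul_mem (inv_mem hk) x.2
            set u : T := t * (s ⟨k, hk⟩)⁻¹ with hu
            have hact : ∀ g, u⁻¹ * i g * u = i (w g) := by
              intro g
              have h1 := hc.act ⟨k, hk⟩ (w g)
              have h2 : k (w g) = x.1 g := by
                rw [hw, MulAut.mul_apply, MulAut.apply_inv_self]
              have h3 : (s ⟨k, hk⟩)⁻¹ * i (w g) * s ⟨k, hk⟩ = i (x.1 g) := by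
                rw [h1]; exact congrArg i h2
              calc u⁻¹ * i g * u = s ⟨k, hk⟩ * (t⁻¹ * i g * t) * (s ⟨k, hk⟩)⁻¹ := by
                    rw [hu]; group
                _ = s ⟨k, hk⟩ * ((s ⟨k, hk⟩)⁻¹ * i (w g) * s ⟨k, hk⟩) * (s ⟨k, hk⟩)⁻¹ := by
                    rw [hx, h3]
                _ = i (w g) := by group
            have hact' : ∀ g, u * i g * u⁻¹ = i (w⁻¹ g) := by
              intro g
              have h1 := hact (w⁻¹ g)
              rw [MulAut.apply_inv_self] at h1
              rw [← h1]; group
            obtain ⟨j, hj⟩ := Set.mem_iUnion.mp hkE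
            have hskj : s ⟨k, hk⟩ ∈ TT i s (D j.1) := TT_x hj
            have hska : s ⟨k, hk⟩ ∈ TT i s (D a) := TT_mono (hDmono _ _ j.2.le) hskj
            have huB : u ∈ B a := by
              rw [hBmem]
              refine ⟨mul_mem ht (inv_mem hska), fun b hb v hv => ?_⟩
              rw [cmod_symm]
              have hle : TT i s E ≤ cmod A u := by
                unfold TT
                rw [Subgroup.closure_le]
                rintro _ (⟨g, hg, rfl⟩ | ⟨y, hy, rfl⟩)
                · rw [SetLike.mem_coe, cmod']
                  refine ⟨(dl w g)⁻¹, inv_mem (hkz g hg), ?_⟩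
                  rw [← map_inv i g, hact, ← map_mul]
                  congr 1
                  unfold dl
                  rw [map_inv]; group
                · rw [SetLike.mem_coe, cmod']
                  obtain ⟨g0, hg0⟩ := hc.comm_range hFC u (s y)
                  refine ⟨g0, ?_, hg0⟩
                  have hyw : y.1 * w = w * y.1 := c_comm hEcl y.2 hy hwX hkz
                  have hacty' : ∀ g, s y * i g * (s y)⁻¹ = i ((y.1)⁻¹ g) := by
                    intro g
                    have h1 := hc.act y ((y.1)⁻¹ g)
                    rw [MulAut.apply_inv_self] at h1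
                    rw [← h1]; group
                  have h4 : ∀ g, g0⁻¹ * g * g0 = g := by
                    intro g
                    apply hc.inj
                    rw [map_mul, map_mul, map_inv, hg0]
                    have h5 : (y.1 * w * (y.1)⁻¹ * w⁻¹) g = g := by
                      rw [hyw]; simp
                    calc (u⁻¹ * (s y)⁻¹ * u * s y)⁻¹ * i g * (u⁻¹ * (s y)⁻¹ * u * s y)
                        = (s y)⁻¹ * (u⁻¹ * (s y * (u * i g * u⁻¹) * (s y)⁻¹) * u) * s y := by
                          group
                      _ = i ((y.1 * w * (y.1)⁻¹ * w⁻¹) g) := by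
                          rw [hact', hacty', hact, hc.act]; rfl
                      _ = i g := by rw [h5]
                  show g0 ∈ Subgroup.center G
                  rw [Subgroup.mem_center_iff]
                  intro g
                  calc g * g0 = g0 * (g0⁻¹ * g * g0) := by group
                    _ = g0 * g := by rw [h4]
              apply hle
              exact TT_mono (Set.subset_iUnion (fun j : {j // j < a} => D j) ⟨b, hb⟩) hv
            have : t = u * s ⟨k, hk⟩ := by rw [hu]; group
            rw [this]
            exact mul_mem (le_iSup B a huB) (iha j.1 j.2 hskj)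
          · apply le_iSup B a
            rw [hBmem]
            refine ⟨ht, fun b hb => ?_⟩
            exact absurd ⟨b, hb⟩ hex
      refine lemF' hC hTFC (TT i s C') B ?_ ?_ ?_ ?_
      · intro a u hu
        exact TT_mono (hDC a) ((hBmem a u).mp hu).1
      · intro t ht
        obtain ⟨S, hS, hS'⟩ := TT_fin ht
        have : ∃ j : C', ↑S ⊆ D j := by
          have hdir : Directed (· ⊆ ·) D := by
            intro a b
            exact ⟨max a b, hDmono _ _ (le_max_left _ _), hDmono _ _ (le_max_right _ _)⟩
          have : Nonempty C' := by
            rw [← mk_ne_zero_iff, hκ]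
            exact (aleph0_pos.trans hgt).ne'
          have hsub : (S : Set (Om G)) ⊆ ⋃ j, D j := by
            intro y hy
            exact Set.mem_iUnion.mpr ⟨⟨y, hS hy⟩, hDmem _⟩
          exact hdir.exists_mem_subset_of_finset_subset_biUnion hsub
        obtain ⟨j, hj⟩ := this
        exact key j (TT_mono hj hS')
      · intro a
        have h1 := ih _ (hDcard a) _ (hDclosed a) rfl
        have hle : B a ≤ TT i s (D a) := fun u hu => ((hBmem a u).mp hu).1
        exact hC.inj (Subgroup.inclusion hle) (Subgroup.inclusion_injective hle) h1
      · intro a b hab x hx y hy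
        apply hAc
        rcases lt_or_gt_of_ne hab with h | h
        · have := ((hBmem b y).mp hy).2 a h x ((hBmem a x).mp hx).1
          exact (mem_cmod _ _ _).mp this
        · have := ((hBmem a x).mp hx).2 b h y ((hBmem b y).mp hy).1
          rw [cmod_symm] at this
          exact (mem_cmod _ _ _).mp this

/-- Every FC-group lies in every direct variety containing the groups with finite derived
subgroup. -/
theorem FCG_mem (hC : Var C) {G : Type} [Group G] (hFC : FCG G) : C G := by
  obtain ⟨T, _, i, s, hc⟩ := exists_Comp (G := G)
  have h1 : C (TT i s Set.univ) := hc.mem hC hFC Set.univ (fun _ _ => Set.subset_univ _)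
  refine hC.inj (i.codRestrict (TT i s Set.univ) (fun g => TT_g trivial)) ?_ h1
  intro a b hab
  exact hc.inj (congrArg Subtype.val hab)

end fin

end Pool.Agent.FCV
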