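import Pool.Agent.FCV.A1

set_option autoImplicit false

namespace Pool.Agent.FCV

open scoped commutatorElement Pointwise

section var

/-- direct variety containing all groups with finite derived subgroup -/
structure Var (C : ∀ (G : Type) [Group G], Prop) : Prop where
  iso : ∀ (G H : Type) [Group G] [Group H], (G ≃* H) → C G → C H
  sub : ∀ (G : Type) [Group G] (H : Subgroup G), C G → C ↥H
  quot : ∀ (G : Type) [Group G] (N : Subgroup G) [N.Normal], C G → C (G ⧸ N)
  prod : ∀ (ι : Type) [DecidableEq ι] (G : ι → Type) [∀ i, Group (G i)],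
    (∀ i, C (G i)) → C ↥(⨆ i, (MonoidHom.mulSingle G i).range)
  fin : ∀ (G : Type) [Group G], Finite ↥(commutator G) → C G

variable {C : ∀ (G : Type) [Group G], Prop}

theorem Var.inj (hC : Var C) {H G : Type} [Group H] [Group G] (f : H →* G)
    (hf : Function.Injective f) (h : C G) : C H :=
  hC.iso _ _ (MonoidHom.ofInjective hf).symm (hC.sub _ _ h)

theorem Var.surj (hC : Var C) {H G : Type} [Group H] [Group G] (f : G →* H)
    (hf : Function.Surjective f) (h : C G) : C H :=
  hC.iso _ _ (QuotientGroup.quotientKerEquivOfSurjective f hf) (hC.quot _ _ h)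

theorem Var.sec (hC : Var C) {S P T : Type} [Group S] [Group P] [Group T] (f : S →* P)
    (g : S →* T) (hg : Function.Surjective g) (hk : ∀ s, f s = 1 → g s = 1) (h : C P) : C T := by
  have h1 : C f.range := hC.sub _ _ h
  have hk' : f.rangeRestrict.ker ≤ g.ker := by
    intro s hs
    rw [MonoidHom.ker_rangeRestrict] at hs
    exact hk s hs
  let u : f.range →* T :=
    MonoidHom.liftOfSurjective f.rangeRestrict f.rangeRestrict_surjective ⟨g, hk'⟩
  have hu : Function.Surjective u := by
    intro t
    obtain ⟨s, hs⟩ := hg t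
    refine ⟨f.rangeRestrict s, ?_⟩
    have := MonoidHom.liftOfRightInverse_comp_apply f.rangeRestrict _
      (Function.rightInverse_surjInv f.rangeRestrict_surjective) ⟨g, hk'⟩ s
    exact this.trans hs
  exact hC.surj u hu h1

theorem mem_restricted {ι : Type} [DecidableEq ι] (K : ι → Type) [∀ i, Group (K i)]
    (x : ∀ i, K i) (hx : {i | x i ≠ 1}.Finite) :
    x ∈ (⨆ i, (MonoidHom.mulSingle K i).range) := by
  apply Submonoid.pi_mem_of_mulSingle_mem_aux hx.toFinset
  · intro i hi
    by_contra h
    exact hi (by simpa using h)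
  · intro i _
    exact (le_iSup (fun i => (MonoidHom.mulSingle K i).range) i) ⟨x i, rfl⟩

theorem Var.subdirect (hC : Var C) {ι : Type} (K : ι → Type) [∀ i, Group (K i)]
    (hK : ∀ i, C (K i)) {S T : Type} [Group S] [Group T] (f : ∀ i, S →* K i)
    (hfin : ∀ s, {i | f i s ≠ 1}.Finite) (g : S →* T) (hg : Function.Surjective g)
    (hk : ∀ s, (∀ i, f i s = 1) → g s = 1) : C T := by
  classical
  let F : S →* ↥(⨆ i, (MonoidHom.mulSingle K i).range) :=
    MonoidHom.mk' (fun s => ⟨fun i => f i s, mem_restricted K _ (hfin s)⟩) (by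
      intro a b
      apply Subtype.ext
      funext i
      exact map_mul (f i) a b)
  refine hC.sec F g hg ?_ (hC.prod _ K hK)
  intro s hs
  apply hk
  intro i
  exact congrFun (congrArg Subtype.val hs) i

/-- two groups as a family -/
def BK (G H : Type) : Bool → Type
  | true => G
  | false => H

instance BKg (G H : Type) [Group G] [Group H] : ∀ b, Group (BK G H b)
  | true => (inferInstance : Group G)
  | false => (inferInstance : Group H)

/-- the projections -/
def BKf (G H : Type) [Group G] [Group H] : ∀ b, (G × H) →* BK G H b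
  | true => MonoidHom.fst G H
  | false => MonoidHom.snd G H

theorem Var.prod2 (hC : Var C) {G H : Type} [Group G] [Group H] (hG : C G) (hH : C H) :
    C (G × H) := by
  refine hC.subdirect (BK G H) ?_ (BKf G H) (fun s => Set.toFinite _) (MonoidHom.id _)
    Function.surjective_id ?_
  · intro b
    cases b
    · exact hH
    · exact hG
  · intro s hs
    exact Prod.ext (hs true) (hs false)

/-- a family and one more factor -/
theorem Var.subdirect2 (hC : Var C) {ι : Type} (K : ι → Type) [∀ i, Group (K i)]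
    (hK : ∀ i, C (K i)) {P S T : Type} [Group S] [Group T] [Group P] (hP : C P) (f : ∀ i, S →* K i)
    (q : S →* P)
    (hfin : ∀ s, {i | f i s ≠ 1}.Finite) (g : S →* T) (hg : Function.Surjective g)
    (hk : ∀ s, (∀ i, f i s = 1) → q s = 1 → g s = 1) : C T := by
  classical
  let F : S →* ↥(⨆ i, (MonoidHom.mulSingle K i).range) :=
    MonoidHom.mk' (fun s => ⟨fun i => f i s, mem_restricted K _ (hfin s)⟩) (by
      intro a b
      apply Subtype.ext
      funext i
      exact map_mul (f i) a b)
  refine hC.sec (F.prod q) g hg ?_ (hC.prod2 (hC.prod _ K hK) hP)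
  intro s hs
  have hs1 : F s = 1 := congrArg Prod.fst hs
  have hs2 : q s = 1 := congrArg Prod.snd hs
  refine hk s ?_ hs2
  intro i
  exact congrFun (congrArg Subtype.val hs1) i

end var

section commfam

/-- elements commuting with `k` modulo `A` -/
def cmod {K : Type} [Group K] (A : Subgroup K) [A.Normal] (k : K) : Subgroup K :=
  (Subgroup.centralizer {(QuotientGroup.mk' A k)}).comap (QuotientGroup.mk' A)

theorem mem_cmod {K : Type} [Group K] (A : Subgroup K) [A.Normal] (k y : K) :
    y ∈ cmod A k ↔ ⁅k, y⁆ ∈ A := by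
  unfold cmod
  rw [Subgroup.mem_comap, Subgroup.mem_centralizer_singleton_iff,
    ← QuotientGroup.eq_one_iff (N := A)]
  have : ((⁅k, y⁆ : K) : K ⧸ A) = ⁅QuotientGroup.mk' A k, QuotientGroup.mk' A y⁆ := by
    rw [← map_commutatorElement]; rfl
  rw [this, commutatorElement_eq_one_iff_mul_comm]
  exact eq_comm

variable {K : Type} [Group K] {ι : Type} {B : ι → Type} [∀ i, Group (B i)]

theorem comm_family (Φ : ∀ i, B i →* K) (A : Subgroup K) [A.Normal]
    (hcomm : ∀ i j, i ≠ j → ∀ b b', ⁅Φ i b, Φ j b'⁆ ∈ A)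
    {D : ι → Type} [∀ i, Group (D i)] (p : ∀ i, K →* D i) (hpA : ∀ i, ∀ a ∈ A, p i a = 1)
    (hp : ∀ i j, i ≠ j → ∀ b, p i (Φ j b) = 1) (hinj : ∀ i b, p i (Φ i b) = 1 → b = 1)
    (x : K) (hx : x ∈ (⨆ i, (Φ i).range) ⊔ A) (h1 : ∀ i, p i x = 1) : x ∈ A := by
  classical
  let S : Finset ι → Subgroup K := fun s => (⨆ i ∈ s, (Φ i).range) ⊔ A
  have hSA : ∀ s, A ≤ S s := fun s => le_sup_right
  -- `p j` kills `S s` if `j ∉ s`
  have hS1 : ∀ s : Finset ι, ∀ j ∉ s, ∀ y ∈ S s, p j y = 1 := by
    intro s j hj y hy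
    have : S s ≤ (p j).ker := by
      refine sup_le ?_ (fun a ha => hpA j a ha)
      refine iSup₂_le ?_
      rintro i hi _ ⟨b, rfl⟩
      refine hp j i ?_ b
      rintro rfl
      exact hj hi
    exact this hy
  have hS2 : ∀ s : Finset ι, ∀ j ∉ s, ∀ b, ∀ y ∈ S s, ⁅Φ j b, y⁆ ∈ A := by
    intro s j hj b y hy
    have : S s ≤ cmod A (Φ j b) := by
      refine sup_le ?_ ?_
      · refine iSup₂_le ?_
        rintro i hi _ ⟨b', rfl⟩
        rw [mem_cmod]
        refine hcomm j i ?_ b b'
        rintro rfl
        exact hj hi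
      · intro a ha
        rw [mem_cmod, commutatorElement_def]
        exact mul_mem (Subgroup.Normal.conj_mem inferInstance a ha _) (inv_mem ha)
    exact (mem_cmod _ _ _).mp (this hy)
  have hS3 : ∀ s : Finset ι, ∀ j ∉ s, ∀ x ∈ S (insert j s), ∃ b, ∃ y ∈ S s, x = Φ j b * y := by
    intro s j hj x hx
    have e : S (insert j s) = (Φ j).range ⊔ S s := by
      show (⨆ i ∈ insert j s, (Φ i).range) ⊔ A = (Φ j).range ⊔ ((⨆ i ∈ s, (Φ i).range) ⊔ A)
      rw [Finset.iSup_insert, sup_assoc]
    have hn : (Φ j).range ≤ Subgroup.normalizer (S s : Set K) := by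
      rintro _ ⟨b, rfl⟩
      have key : ∀ b, ∀ y ∈ S s, Φ j b * y * (Φ j b)⁻¹ ∈ S s := by
        intro b y hy
        have h3 := hSA s (hS2 s j hj b y hy)
        have : Φ j b * y * (Φ j b)⁻¹ = ⁅Φ j b, y⁆ * y := by
          rw [commutatorElement_def]; group
        rw [this]
        exact mul_mem h3 hy
      rw [Subgroup.mem_normalizer_iff]
      intro y
      constructor
      · exact key b y
      · intro h
        have := key b⁻¹ _ h
        simpa [mul_assoc] using this
    have hx' : x ∈ ((Φ j).range : Set K) * (S s : Set K) := by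
      rw [← Subgroup.coe_mul_of_left_le_normalizer_right _ _ hn, ← e]
      exact hx
    obtain ⟨_, ⟨b, rfl⟩, y, hy, rfl⟩ := Set.mem_mul.mp hx'
    exact ⟨b, y, hy, rfl⟩
  have hS4 : ∀ s : Finset ι, ∀ x ∈ S s, (∀ i ∈ s, p i x = 1) → x ∈ A := by
    intro s
    induction s using Finset.induction_on with
    | empty =>
      intro x hx _
      have : S ∅ = A := by
        show (⨆ i ∈ (∅ : Finset ι), (Φ i).range) ⊔ A = A
        simp
      rwa [this] at hx
    | insert j s hj ih =>
      intro x hx h
      obtain ⟨b, y, hy, rfl⟩ := hS3 s j hj x hx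
      have h2 := h j (Finset.mem_insert_self _ _)
      rw [map_mul, hS1 s j hj y hy, mul_one] at h2
      have h3 := hinj j b h2
      rw [h3, map_one, one_mul] at h ⊢
      exact ih y hy (fun i hi => h i (Finset.mem_insert_of_mem hi))
  -- finite support
  have hS5 : ∃ s : Finset ι, x ∈ S s := by
    have hdir : Directed (· ≤ ·) S := by
      intro s t
      refine ⟨s ∪ t, ?_, ?_⟩
      · exact sup_le_sup_right (biSup_mono (fun i hi => Finset.mem_union_left _ hi)) _
      · exact sup_le_sup_right (biSup_mono (fun i hi => Finset.mem_union_right _ hi)) _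
    have hle : (⨆ i, (Φ i).range) ⊔ A ≤ ⨆ s, S s := by
      refine sup_le (iSup_le ?_) ((hSA ∅).trans (le_iSup S ∅))
      intro i
      refine le_trans ?_ (le_iSup S {i})
      refine le_trans ?_ le_sup_left
      exact le_biSup (fun i => (Φ i).range) (Finset.mem_singleton_self i)
    exact (Subgroup.mem_iSup_of_directed hdir).mp (hle hx)
  obtain ⟨s, hs⟩ := hS5
  exact hS4 s x hs (fun i _ => h1 i)

end commfam

section glue

variable {C : ∀ (G : Type) [Group G], Prop}

/-- The gluing lemma. -/
theorem Var.glue (hC : Var C) {ι : Type} (B : ι → Type) [∀ i, Group (B i)]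
    (hB : ∀ i, C (B i)) {P T : Type} [Group P] [Group T] (hP : C P)
    (φ : ∀ i, B i →* P) (ψ : ∀ i, B i →* T) (A : Subgroup (P × T)) [A.Normal]
    (hA : ∀ t : T, (1, t) ∈ A → t = 1)
    (hc : ∀ i j, i ≠ j → ∀ b b', ⁅(φ i b, ψ i b), (φ j b', ψ j b')⁆ ∈ A)
    (hgen : (⨆ i, (ψ i).range) = ⊤) : C T := by
  classical
  let Φ : ∀ i, B i →* ((∀ i, B i) × (P × T)) := fun i =>
    (MonoidHom.mulSingle B i).prod ((φ i).prod (ψ i))
  let S : Subgroup ((∀ i, B i) × (P × T)) := ⨆ i, (Φ i).range
  let A' : Subgroup ((∀ i, B i) × (P × T)) := (⊥ : Subgroup (∀ i, B i)).prod A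
  have hA'n : A'.Normal := Subgroup.prod_normal _ _
  have hmem : ∀ i b, Φ i b ∈ S := fun i b => (le_iSup (fun i => (Φ i).range) i) ⟨b, rfl⟩
  refine hC.subdirect2 (S := S) B hB hP
    (fun i => (Pi.evalMonoidHom B i).comp ((MonoidHom.fst _ _).comp S.subtype))
    ((MonoidHom.fst P T).comp ((MonoidHom.snd _ _).comp S.subtype)) ?_
    ((MonoidHom.snd P T).comp ((MonoidHom.snd _ _).comp S.subtype)) ?_ ?_
  · rintro ⟨s, hs⟩
    show {i | s.1 i ≠ 1}.Finite
    -- finite support
    let R : Subgroup ((∀ i, B i) × (P × T)) :=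
      { carrier := {s | {i | s.1 i ≠ 1}.Finite}
        one_mem' := by simp
        mul_mem' := by
          intro a b ha hb
          refine (ha.union hb).subset ?_
          intro i hi
          by_contra hcon
          apply hi
          simp only [Set.mem_union, Set.mem_ofPred_eq, not_or, not_not] at hcon
          show a.1 i * b.1 i = 1
          rw [hcon.1, hcon.2, one_mul]
        inv_mem' := by
          intro a ha
          refine Set.Finite.subset ha ?_
          intro i hi hcon
          apply hi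
          show (a.1 i)⁻¹ = 1
          rw [hcon, inv_one] }
    have : S ≤ R := by
      refine iSup_le ?_
      rintro i _ ⟨b, rfl⟩
      refine (Set.finite_singleton i).subset ?_
      intro j hj
      by_contra hne
      apply hj
      show Pi.mulSingle i b j = 1
      exact Pi.mulSingle_eq_of_ne hne b
    exact this hs
  · intro t
    have ht : t ∈ ⨆ i, (ψ i).range := by rw [hgen]; trivial
    have : (⨆ i, (ψ i).range) ≤
        ((MonoidHom.snd P T).comp ((MonoidHom.snd _ _).comp S.subtype)).range := by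
      refine iSup_le ?_
      rintro i _ ⟨b, rfl⟩
      exact ⟨⟨Φ i b, hmem i b⟩, rfl⟩
    exact this ht
  · rintro ⟨s, hs⟩ h1 h2
    have h1' : s.1 = 1 := funext h1
    have h2' : s.2.1 = 1 := h2
    have key : s ∈ A' := by
      refine comm_family Φ A' ?_ (D := B)
        (fun i => (Pi.evalMonoidHom B i).comp (MonoidHom.fst _ _)) ?_ ?_ ?_ s
        ((le_sup_left : S ≤ S ⊔ A') hs) h1
      · intro i j hij b b'
        refine ⟨?_, ?_⟩
        · show ⁅Pi.mulSingle i b, Pi.mulSingle j b'⁆ = 1
          rw [commutatorElement_eq_one_iff_mul_comm]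
          exact Pi.mulSingle_commute hij b b'
        · exact hc i j hij b b'
      · rintro i a ⟨ha, _⟩
        have : a.1 = 1 := ha
        show a.1 i = 1
        rw [this]; rfl
      · intro i j hij b
        show Pi.mulSingle j b i = 1
        exact Pi.mulSingle_eq_of_ne hij b
      · intro i b hb
        have : Pi.mulSingle (M := B) i b i = 1 := hb
        rwa [Pi.mulSingle_eq_same] at this
    have h3 : s.2 ∈ A := key.2
    show s.2.2 = 1
    apply hA
    rw [← h2']
    exact h3

end glue

end Pool.Agent.FCV
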