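import Pool.Agent.FCV.A2

set_option autoImplicit false

/-! The results of this file are due to helper252 (MP_fb3574_al.ClassTwo). -/

namespace Pool.Agent.FCV

open scoped commutatorElement IsMulCommutative

/-- FC-groups: all conjugacy classes are finite. -/
def IsFC (G : Type) [Group G] : Prop := ∀ g : G, {h : G | IsConj g h}.Finite

/-- The class of groups with finite derived subgroup. -/
def FinDerived (G : Type) [Group G] : Prop := Finite ↥(commutator G)

/-! ### Heisenberg type groups -/

/-- The group on `A × L` with product `(a, l)(a', l') = (a + a' + B l l', l + l')`. -/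
@[ext] structure Hs {A L : Type} [AddCommGroup A] [AddCommGroup L] (B : L →+ L →+ A) where
  z : A
  v : L

namespace Hs

variable {A L : Type} [AddCommGroup A] [AddCommGroup L] {B : L →+ L →+ A}

instance : Mul (Hs B) := ⟨fun x y => ⟨x.z + y.z + B x.v y.v, x.v + y.v⟩⟩
instance : One (Hs B) := ⟨⟨0, 0⟩⟩
instance : Inv (Hs B) := ⟨fun x => ⟨-x.z + B x.v x.v, -x.v⟩⟩

@[simp] theorem mul_z (x y : Hs B) : (x * y).z = x.z + y.z + B x.v y.v := rfl
@[simp] theorem mul_v (x y : Hs B) : (x * y).v = x.v + y.v := rfl
@[simp] theorem one_z : (1 : Hs B).z = 0 := rfl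
@[simp] theorem one_v : (1 : Hs B).v = 0 := rfl
@[simp] theorem inv_z (x : Hs B) : (x⁻¹).z = -x.z + B x.v x.v := rfl
@[simp] theorem inv_v (x : Hs B) : (x⁻¹).v = -x.v := rfl

instance : Group (Hs B) := Group.ofLeftAxioms
  (by
    intro x y w
    ext
    · simp only [mul_z, mul_v, map_add, AddMonoidHom.add_apply]; abel
    · simp only [mul_v]; abel)
  (by
    intro x
    ext <;> simp)
  (by
    intro x
    ext <;> simp)

theorem comm_v (x y : Hs B) : (⁅x, y⁆).v = 0 := by
  simp [commutatorElement_def]

theorem comm_z (x y : Hs B) : (⁅x, y⁆).z = B x.v y.v - B y.v x.v := by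
  simp only [commutatorElement_def, mul_z, mul_v, inv_z, inv_v, map_add, map_neg,
    AddMonoidHom.add_apply, AddMonoidHom.neg_apply]
  abel

/-- Functoriality. -/
def map {A' L' : Type} [AddCommGroup A'] [AddCommGroup L'] {B' : L' →+ L' →+ A'}
    (f : A →+ A') (g : L →+ L') (h : ∀ l l', B' (g l) (g l') = f (B l l')) :
    Hs B →* Hs B' where
  toFun x := ⟨f x.z, g x.v⟩
  map_one' := by ext <;> simp
  map_mul' x y := by
    ext
    · simp [h]
    · simp

@[simp] theorem map_z {A' L' : Type} [AddCommGroup A'] [AddCommGroup L'] {B' : L' →+ L' →+ A'}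
    (f : A →+ A') (g : L →+ L') (h : ∀ l l', B' (g l) (g l') = f (B l l')) (x : Hs B) :
    (map f g h x).z = f x.z := rfl

@[simp] theorem map_v {A' L' : Type} [AddCommGroup A'] [AddCommGroup L'] {B' : L' →+ L' →+ A'}
    (f : A →+ A') (g : L →+ L') (h : ∀ l l', B' (g l) (g l') = f (B l l')) (x : Hs B) :
    (map f g h x).v = g x.v := rfl

/-- The subgroup `{(a, 0) : a ∈ F}`. -/
def sub (B : L →+ L →+ A) (F : AddSubgroup A) : Subgroup (Hs B) where
  carrier := {x | x.z ∈ F ∧ x.v = 0}
  one_mem' := ⟨F.zero_mem, rfl⟩
  mul_mem' := by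
    rintro x y ⟨hx, hx'⟩ ⟨hy, hy'⟩
    refine ⟨?_, ?_⟩
    · simp [hx', F.add_mem hx hy]
    · simp [hx', hy']
  inv_mem' := by
    rintro x ⟨hx, hx'⟩
    refine ⟨?_, ?_⟩
    · simp [hx', hx]
    · simp [hx']

theorem finDerived (F : AddSubgroup A) (hF : Finite F) (hB : ∀ l l', B l l' ∈ F) :
    FinDerived (Hs B) := by
  have h1 : commutator (Hs B) ≤ sub B F := by
    rw [commutator_def, Subgroup.commutator_le]
    intro x _ y _
    refine ⟨?_, comm_v x y⟩
    rw [comm_z]
    exact F.sub_mem (hB _ _) (hB _ _)
  have h2 : Finite (sub B F) := by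
    refine Finite.of_injective (fun x : sub B F => (⟨x.1.z, x.2.1⟩ : F)) ?_
    rintro ⟨x, hx⟩ ⟨y, hy⟩ h
    simp only [Subtype.mk.injEq] at h
    apply Subtype.ext
    ext
    · exact h
    · show x.v = y.v
      rw [hx.2, hy.2]
  exact Finite.of_injective _ (Subgroup.inclusion_injective h1)

end Hs

/-! ### Bilinear maps from values on a basis -/

section Bil

variable {X A : Type} [AddCommGroup A]

/-- The biadditive map on `X →₀ ℤ` with given values on the basis. -/
noncomputable def bil (b : X → X → A) : (X →₀ ℤ) →+ (X →₀ ℤ) →+ A :=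
  Finsupp.liftAddHom (fun α => zmultiplesHom _
    (Finsupp.liftAddHom (fun β => zmultiplesHom _ (b α β))))

theorem bil_single (b : X → X → A) (α β : X) (m n : ℤ) :
    bil b (Finsupp.single α m) (Finsupp.single β n) = m • n • b α β := by
  simp [bil]

theorem bil_ext {B B' : (X →₀ ℤ) →+ (X →₀ ℤ) →+ A}
    (h : ∀ α β, B (Finsupp.single α 1) (Finsupp.single β 1) =
      B' (Finsupp.single α 1) (Finsupp.single β 1)) : B = B' := by
  ext α β
  exact h α β

theorem bil_mem (b : X → X → A) (F : AddSubgroup A) (h : ∀ α β, b α β ∈ F) (l l' : X →₀ ℤ) :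
    bil b l l' ∈ F := by
  induction l using Finsupp.induction_linear with
  | zero => simp
  | add f g hf hg =>
    rw [map_add, AddMonoidHom.add_apply]
    exact F.add_mem hf hg
  | single α m =>
    induction l' using Finsupp.induction_linear with
    | zero => simp
    | add f g hf hg =>
      rw [map_add]
      exact F.add_mem hf hg
    | single β n =>
      rw [bil_single]
      exact F.zsmul_mem (F.zsmul_mem (h α β) n) m

theorem bil_map {A' : Type} [AddCommGroup A'] (b : X → X → A) (f : A →+ A') (l l' : X →₀ ℤ) :
    bil (fun α β => f (b α β)) l l' = f (bil b l l') := by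
  induction l using Finsupp.induction_linear with
  | zero => simp
  | add g g' hg hg' => simp only [map_add, AddMonoidHom.add_apply, hg, hg']
  | single α m =>
    induction l' using Finsupp.induction_linear with
    | zero => simp
    | add g g' hg hg' => simp only [map_add, hg, hg']
    | single β n => simp only [bil_single, map_zsmul]

theorem bil_filter (b : X → X → A) (p : X → Prop) [DecidablePred p]
    (h : ∀ α β, b α β ≠ 0 → p α ∧ p β) (l l' : X →₀ ℤ) :
    bil b (Finsupp.filterAddHom p l) (Finsupp.filterAddHom p l') = bil b l l' := by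
  induction l using Finsupp.induction_linear with
  | zero => simp
  | add g g' hg hg' => simp only [map_add, AddMonoidHom.add_apply, hg, hg']
  | single α m =>
    induction l' using Finsupp.induction_linear with
    | zero => simp
    | add g g' hg hg' => simp only [map_add, hg, hg']
    | single β n =>
      have e : ∀ (q : X → Prop) [DecidablePred q] (γ : X) (k : ℤ),
          Finsupp.filterAddHom q (Finsupp.single γ k) = if q γ then Finsupp.single γ k else 0 := by
        intro q _ γ k
        show Finsupp.filter q (Finsupp.single γ k) = _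
        split_ifs with hq
        · exact Finsupp.filter_single_of_pos q hq
        · exact Finsupp.filter_single_of_neg q hq
      rw [e, e, bil_single]
      by_cases h0 : b α β = 0
      · split_ifs <;> simp [bil_single, h0]
      · obtain ⟨h1, h2⟩ := h α β h0
        rw [if_pos h1, if_pos h2, bil_single]

end Bil

/-! ### The decomposition for groups of class two -/

section Main

variable {G : Type} [Group G]

theorem comm_mul_right' (hc : commutator G ≤ Subgroup.center G) (a b c : G) :
    ⁅a, b * c⁆ = ⁅a, b⁆ * ⁅a, c⁆ := by
  have h : ⁅a, c⁆ ∈ Subgroup.center G :=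
    hc (Subgroup.commutator_mem_commutator (Subgroup.mem_top a) (Subgroup.mem_top c))
  have h2 := (Subgroup.mem_center_iff.1 h) b
  have : ⁅a, b * c⁆ = ⁅a, b⁆ * (b * ⁅a, c⁆ * b⁻¹) := by
    simp only [commutatorElement_def]; group
  rw [this, h2]; group

theorem comm_mul_left' (hc : commutator G ≤ Subgroup.center G) (a b c : G) :
    ⁅a * b, c⁆ = ⁅a, c⁆ * ⁅b, c⁆ := by
  rw [← inv_inj, commutatorElement_inv, comm_mul_right' hc, mul_inv_rev, commutatorElement_inv,
    commutatorElement_inv]
  have h : ⁅c, a⁆ ∈ Subgroup.center G :=
    hc (Subgroup.commutator_mem_commutator (Subgroup.mem_top c) (Subgroup.mem_top a))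
  exact ((Subgroup.mem_center_iff.1 h) _).symm

/-- The commutator as a map into the centre. -/
def kap (hc : commutator G ≤ Subgroup.center G) (a : G) : G →* ↥(Subgroup.center G) where
  toFun b := ⟨⁅a, b⁆,
    hc (Subgroup.commutator_mem_commutator (Subgroup.mem_top a) (Subgroup.mem_top b))⟩
  map_one' := by
    apply Subtype.ext
    exact commutatorElement_one_right a
  map_mul' b c := by
    apply Subtype.ext
    exact comm_mul_right' hc a b c

/-- The set of all commutators with a given element, an additive subgroup of the centre. -/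
def R (hc : commutator G ≤ Subgroup.center G) (a : G) :
    AddSubgroup (Additive ↥(Subgroup.center G)) :=
  Subgroup.toAddSubgroup (kap hc a).range

/-- The commutator, written additively. -/
def cc (hc : commutator G ≤ Subgroup.center G) (a b : G) : Additive ↥(Subgroup.center G) :=
  Additive.ofMul (kap hc a b)

theorem cc_mem_left (hc : commutator G ≤ Subgroup.center G) (a b : G) : cc hc a b ∈ R hc a :=
  ⟨b, rfl⟩

theorem cc_symm (hc : commutator G ≤ Subgroup.center G) (a b : G) :
    cc hc a b = - cc hc b a := by
  show Additive.ofMul (kap hc a b) = Additive.ofMul ((kap hc b a)⁻¹)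
  congr 1
  apply Subtype.ext
  show ⁅a, b⁆ = ⁅b, a⁆⁻¹
  rw [commutatorElement_inv]

theorem cc_self (hc : commutator G ≤ Subgroup.center G) (a : G) : cc hc a a = 0 := by
  show Additive.ofMul (kap hc a a) = Additive.ofMul 1
  congr 1
  apply Subtype.ext
  show ⁅a, a⁆ = 1
  rw [commutatorElement_self]

theorem cc_mem_right (hc : commutator G ≤ Subgroup.center G) (a b : G) :
    cc hc a b ∈ R hc b := by
  rw [cc_symm]
  exact (R hc b).neg_mem (cc_mem_left hc b a)

theorem R_finite (hG : IsFC G) (hc : commutator G ≤ Subgroup.center G) (a : G) :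
    (R hc a : Set (Additive ↥(Subgroup.center G))).Finite := by
  have h1 : ((fun h : G => a * h⁻¹) '' {h : G | IsConj a h}).Finite := (hG a).image _
  have h2 : Set.InjOn (fun x : Additive ↥(Subgroup.center G) => ((Additive.toMul x : _) : G))
      ((fun x : Additive ↥(Subgroup.center G) => ((Additive.toMul x : _) : G)) ⁻¹'
        ((fun h : G => a * h⁻¹) '' {h : G | IsConj a h})) := by
    intro x _ y _ h
    exact Subtype.ext h
  refine (h1.preimage h2).subset ?_
  rintro x ⟨g, hg⟩
  refine ⟨g * a * g⁻¹, isConj_iff.2 ⟨g, rfl⟩, ?_⟩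
  have h3 : ((Additive.toMul x : ↥(Subgroup.center G)) : G) = ⁅a, g⁆ := by
    have := congrArg (fun t : ↥(Subgroup.center G) => (t : G)) hg
    exact this.symm
  show a * (g * a * g⁻¹)⁻¹ = ((Additive.toMul x : ↥(Subgroup.center G)) : G)
  rw [h3, commutatorElement_def]
  group

open Classical in
/-- The commutator of a decreasing pair, placed in the coordinate `R a ⊓ R b`. -/
noncomputable def bb (hc : commutator G ≤ Subgroup.center G) (a b : G) :
    AddSubgroup (Additive ↥(Subgroup.center G)) →₀ Additive ↥(Subgroup.center G) :=
  if WellOrderingRel b a then Finsupp.single (R hc a ⊓ R hc b) (cc hc a b) else 0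

/-- The ambient group. -/
abbrev E (hc : commutator G ≤ Subgroup.center G) : Type := Hs (bil (bb hc))

/-- The map from the free group on the set `G` to `E`. -/
noncomputable def psi (hc : commutator G ≤ Subgroup.center G) : FreeGroup G →* E hc :=
  FreeGroup.lift (fun a => ⟨0, Finsupp.single a 1⟩)

/-- The sum of all coordinates. -/
noncomputable def sig (A : Type) [AddCommGroup A] (I : Type) : (I →₀ A) →+ A :=
  Finsupp.liftAddHom (fun _ => AddMonoidHom.id A)

theorem sig_single (A : Type) [AddCommGroup A] (I : Type) (i : I) (a : A) :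
    sig A I (Finsupp.single i a) = a := by
  simp [sig]

theorem sig_bb (hc : commutator G ≤ Subgroup.center G) (a b : G) :
    sig _ _ (bb hc a b) - sig _ _ (bb hc b a) = cc hc a b := by
  classical
  unfold bb
  rcases trichotomous_of WellOrderingRel a b with h | h | h
  · have h' : ¬ WellOrderingRel b a := asymm_of _ h
    rw [if_neg h', if_pos h, sig_single, map_zero, zero_sub, ← cc_symm]
  · subst h
    rw [cc_self, sub_self]
  · have h' : ¬ WellOrderingRel a b := asymm_of _ h
    rw [if_pos h, if_neg h', sig_single, map_zero, sub_zero]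

omit [Group G] in
theorem free_biadd {A : Type} [AddCommGroup A] (f g : FreeGroup G → FreeGroup G → A)
    (hf1 : ∀ x y w, f (x * y) w = f x w + f y w) (hf2 : ∀ x y w, f x (y * w) = f x y + f x w)
    (hg1 : ∀ x y w, g (x * y) w = g x w + g y w) (hg2 : ∀ x y w, g x (y * w) = g x y + g x w)
    (h : ∀ a b, f (FreeGroup.of a) (FreeGroup.of b) = g (FreeGroup.of a) (FreeGroup.of b)) :
    ∀ x y, f x y = g x y := by
  have h1 : ∀ a y, f (FreeGroup.of a) y = g (FreeGroup.of a) y := by
    intro a y
    let F1 : FreeGroup G →* Multiplicative A :=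
      MonoidHom.mk' (fun y => Multiplicative.ofAdd (f (FreeGroup.of a) y)) (by
        intro y w; rw [hf2]; rfl)
    let F2 : FreeGroup G →* Multiplicative A :=
      MonoidHom.mk' (fun y => Multiplicative.ofAdd (g (FreeGroup.of a) y)) (by
        intro y w; rw [hg2]; rfl)
    have : F1 = F2 := FreeGroup.ext_hom _ _ (fun b => congrArg Multiplicative.ofAdd (h a b))
    exact congrArg Multiplicative.toAdd (DFunLike.congr_fun this y)
  intro x y
  let F1 : FreeGroup G →* Multiplicative A :=
    MonoidHom.mk' (fun x => Multiplicative.ofAdd (f x y)) (by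
      intro x w; rw [hf1]; rfl)
  let F2 : FreeGroup G →* Multiplicative A :=
    MonoidHom.mk' (fun x => Multiplicative.ofAdd (g x y)) (by
      intro x w; rw [hg1]; rfl)
  have : F1 = F2 := FreeGroup.ext_hom _ _ (fun a => congrArg Multiplicative.ofAdd (h1 a y))
  exact congrArg Multiplicative.toAdd (DFunLike.congr_fun this x)

/-- For two words, the commutator in `G` is given by the bilinear map. -/
theorem cc_words (hc : commutator G ≤ Subgroup.center G) (u w : FreeGroup G) :
    cc hc (FreeGroup.lift id u) (FreeGroup.lift id w) =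
      sig _ _ (bil (bb hc) (psi hc u).v (psi hc w).v)
        - sig _ _ (bil (bb hc) (psi hc w).v (psi hc u).v) := by
  refine free_biadd (fun u w => cc hc (FreeGroup.lift id u) (FreeGroup.lift id w))
    (fun u w => sig _ _ (bil (bb hc) (psi hc u).v (psi hc w).v)
        - sig _ _ (bil (bb hc) (psi hc w).v (psi hc u).v)) ?_ ?_ ?_ ?_ ?_ u w
  · intro x y w
    simp only [map_mul]
    apply congrArg Additive.ofMul
    apply Subtype.ext
    exact comm_mul_left' hc _ _ _
  · intro x y w
    simp only [map_mul]
    apply congrArg Additive.ofMul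
    apply Subtype.ext
    exact comm_mul_right' hc _ _ _
  · intro x y w
    simp only [map_mul, Hs.mul_v, map_add, AddMonoidHom.add_apply]
    abel
  · intro x y w
    simp only [map_mul, Hs.mul_v, map_add, AddMonoidHom.add_apply]
    abel
  · intro a b
    simp only [psi, FreeGroup.lift_apply_of, id_eq, bil_single, one_smul]
    exact (sig_bb hc a b).symm

theorem comm_words (hc : commutator G ≤ Subgroup.center G) (w : FreeGroup G)
    (hw : w ∈ commutator (FreeGroup G)) :
    (psi hc w).v = 0 ∧ FreeGroup.lift id w =
      ((Additive.toMul (sig _ _ (psi hc w).z) : ↥(Subgroup.center G)) : G) := by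
  let S : Subgroup (FreeGroup G) :=
    { carrier := {w | (psi hc w).v = 0 ∧ FreeGroup.lift id w =
        ((Additive.toMul (sig _ _ (psi hc w).z) : ↥(Subgroup.center G)) : G)}
      one_mem' := by
        simp
      mul_mem' := by
        rintro a b ⟨ha, ha'⟩ ⟨hb, hb'⟩
        refine ⟨by simp [ha, hb], ?_⟩
        rw [map_mul, map_mul, Hs.mul_z, ha, map_zero, AddMonoidHom.zero_apply, add_zero,
          map_add, ha', hb']
        rfl
      inv_mem' := by
        rintro a ⟨ha, ha'⟩
        refine ⟨by simp [ha], ?_⟩
        rw [map_inv, map_inv, Hs.inv_z, ha, map_zero, add_zero, map_neg, ha']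
        rfl }
  have h : commutator (FreeGroup G) ≤ S := by
    rw [commutator_def, Subgroup.commutator_le]
    intro x _ y _
    refine ⟨?_, ?_⟩
    · rw [map_commutatorElement]
      exact Hs.comm_v _ _
    · rw [map_commutatorElement, map_commutatorElement, Hs.comm_z, map_sub, ← cc_words]
      rfl
  exact h hw

theorem mem_comm_of_v (hc : commutator G ≤ Subgroup.center G) (w : FreeGroup G)
    (hw : (psi hc w).v = 0) : w ∈ commutator (FreeGroup G) := by
  let τ : (G →₀ ℤ) →+ Additive (Abelianization (FreeGroup G)) :=
    Finsupp.liftAddHom (fun a => zmultiplesHom _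
      (Additive.ofMul (Abelianization.of (FreeGroup.of a))))
  let F1 : FreeGroup G →* Abelianization (FreeGroup G) :=
    MonoidHom.mk' (fun w => Additive.toMul (τ (psi hc w).v)) (by
      intro a b
      rw [map_mul, Hs.mul_v, map_add]
      rfl)
  have h : F1 = Abelianization.of := by
    refine FreeGroup.ext_hom _ _ (fun a => ?_)
    show Additive.toMul (τ (psi hc (FreeGroup.of a)).v) = _
    simp [psi, τ]
  have h2 : Abelianization.of w = 1 := by
    rw [← h]
    show Additive.toMul (τ (psi hc w).v) = 1
    rw [hw, map_zero]
    rfl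
  rw [← Abelianization.ker_of]
  exact h2

/-- The coordinates. -/
noncomputable def ev (A : Type) [AddCommGroup A] (I : Type) : Option I → ((I →₀ A) →+ A)
  | none => 0
  | some i => Finsupp.applyAddHom i

/-- The letters active in a coordinate. -/
def act (hc : commutator G ≤ Subgroup.center G) :
    Option (AddSubgroup (Additive ↥(Subgroup.center G))) → G → Prop
  | none => fun _ => True
  | some F => fun a => F ≤ R hc a

theorem act_of_ne (hc : commutator G ≤ Subgroup.center G)
    (i : Option (AddSubgroup (Additive ↥(Subgroup.center G)))) (a b : G)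
    (h : ev _ _ i (bb hc a b) ≠ 0) : act hc i a ∧ act hc i b := by
  classical
  cases i with
  | none => exact ⟨trivial, trivial⟩
  | some F =>
    have h1 : (bb hc a b) F ≠ 0 := h
    unfold bb at h1
    split_ifs at h1 with h2
    · rw [Finsupp.single_apply] at h1
      split_ifs at h1 with h3
      · subst h3
        exact ⟨inf_le_left, inf_le_right⟩
      · exact absurd rfl h1
    · exact absurd rfl h1

/-- The factor groups. -/
abbrev KK (hc : commutator G ≤ Subgroup.center G)
    (i : Option (AddSubgroup (Additive ↥(Subgroup.center G)))) : Type :=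
  Hs (bil (fun a b => ev _ _ i (bb hc a b)))

open Classical in
/-- The coordinate homomorphisms. -/
noncomputable def Th (hc : commutator G ≤ Subgroup.center G)
    (i : Option (AddSubgroup (Additive ↥(Subgroup.center G)))) : E hc →* KK hc i :=
  Hs.map (ev _ _ i) (Finsupp.filterAddHom (act hc i)) (by
    intro l l'
    rw [bil_filter _ _ (act_of_ne hc i), bil_map])

theorem KK_finDerived (hG : IsFC G) (hc : commutator G ≤ Subgroup.center G)
    (i : Option (AddSubgroup (Additive ↥(Subgroup.center G)))) : FinDerived (KK hc i) := by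
  classical
  cases i with
  | none =>
    refine Hs.finDerived ⊥ inferInstance ?_
    intro l l'
    refine bil_mem _ _ ?_ l l'
    intro a b
    rfl
  | some F =>
    by_cases hF : Finite F
    · refine Hs.finDerived F hF ?_
      intro l l'
      refine bil_mem _ _ ?_ l l'
      intro a b
      show (bb hc a b) F ∈ F
      unfold bb
      split_ifs with h
      · rw [Finsupp.single_apply]
        split_ifs with h3
        · rw [← h3]
          exact ⟨cc_mem_left hc a b, cc_mem_right hc a b⟩
        · exact F.zero_mem
      · exact F.zero_mem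
    · refine Hs.finDerived ⊥ inferInstance ?_
      intro l l'
      refine bil_mem _ _ ?_ l l'
      intro a b
      show (bb hc a b) F ∈ _
      unfold bb
      split_ifs with h
      · rw [Finsupp.single_apply]
        split_ifs with h3
        · exfalso
          apply hF
          rw [← h3]
          exact ((R_finite hG hc a).subset (fun x hx => hx.1)).to_subtype
        · exact AddSubgroup.zero_mem _
      · exact AddSubgroup.zero_mem _

theorem Th_finite (hG : IsFC G) (hc : commutator G ≤ Subgroup.center G) (x : E hc) :
    {i | Th hc i x ≠ 1}.Finite := by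
  classical
  have h1 : ∀ a : G, {F : AddSubgroup (Additive ↥(Subgroup.center G)) | F ≤ R hc a}.Finite := by
    intro a
    have h2 := (R_finite hG hc a).finite_subsets
    exact h2.preimage (f := fun F : AddSubgroup (Additive ↥(Subgroup.center G)) =>
      (F : Set (Additive ↥(Subgroup.center G)))) SetLike.coe_injective.injOn
  have h3 : ({none} ∪ (some '' ((x.z.support : Set _) ∪
      ⋃ a ∈ (x.v.support : Set G), {F | F ≤ R hc a}))).Finite := by
    refine (Set.finite_singleton _).union (Set.Finite.image _ ?_)
    refine (Finset.finite_toSet _).union ?_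
    exact Set.Finite.biUnion (Finset.finite_toSet _) (fun a _ => h1 a)
  refine h3.subset ?_
  intro i hi
  cases i with
  | none => exact Or.inl rfl
  | some F =>
    refine Or.inr ⟨F, ?_, rfl⟩
    by_contra hn
    apply hi
    have h4 : x.z F = 0 := by
      by_contra h5
      exact hn (Or.inl (by simpa using h5))
    have h6 : ∀ a, F ≤ R hc a → x.v a = 0 := by
      intro a ha
      by_contra h5
      refine hn (Or.inr ?_)
      refine Set.mem_biUnion (x := a) ?_ ha
      simpa using h5
    apply Hs.ext
    · exact h4
    · show Finsupp.filter (fun a => F ≤ R hc a) x.v = 0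
      ext a
      rw [Finsupp.filter_apply]
      split_ifs with h7
      · exact h6 a h7
      · rfl

theorem Th_injective (hc : commutator G ≤ Subgroup.center G) (x : E hc)
    (hx : ∀ i, Th hc i x = 1) : x = 1 := by
  classical
  apply Hs.ext
  · exact Finsupp.ext (fun F => congrArg Hs.z (hx (some F)))
  · have h1 := congrArg Hs.v (hx none)
    have h2 : Finsupp.filter (act hc none) x.v = 0 := h1
    ext a
    have h3 := DFunLike.congr_fun h2 a
    rw [Finsupp.filter_apply, if_pos (show act hc none a from trivial)] at h3
    exact h3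

/-- Every FC-group of class at most two lies in the direct variety generated by the groups with
finite derived subgroup. -/
theorem classTwo {C : ∀ (G : Type) [Group G], Prop} (hC : Var C) (hG : IsFC G)
    (hc : commutator G ≤ Subgroup.center G) : C G := by
  classical
  refine hC.subdirect (KK hc) (fun i => hC.fin _ (KK_finDerived hG hc i))
    (S := FreeGroup G) (fun i => (Th hc i).comp (psi hc))
    (fun w => Th_finite hG hc (psi hc w)) (FreeGroup.lift id) ?_ ?_
  · intro g
    exact ⟨FreeGroup.of g, by simp⟩
  · intro w h4
    have h6 := Th_injective hc _ h4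
    have h7 : (psi hc w).v = 0 := by rw [h6]; rfl
    have h8 := comm_words hc w (mem_comm_of_v hc w h7)
    rw [h8.2, h6]
    simp

end Main

end Pool.Agent.FCV
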