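import Pool.Agent.FCV.A3

set_option autoImplicit false

namespace Pool.Agent.FCV

open scoped commutatorElement Pointwise IsMulCommutative

section lemF

variable {T : Type} [Group T] {ι : Type} (B : ι → Subgroup T)

/-- The commutator pairing of two subgroups commuting modulo the centre. -/
def kp (hc : ∀ i j, i ≠ j → ∀ b ∈ B i, ∀ b' ∈ B j, ⁅b, b'⁆ ∈ Subgroup.center T) (i j : ι)
    (hij : i ≠ j) : B i →* (B j →* ↥(Subgroup.center T)) :=
  MonoidHom.mk' (fun b => MonoidHom.mk' (fun b' => ⟨⁅b.1, b'.1⁆, hc i j hij _ b.2 _ b'.2⟩) (by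
    intro x y
    apply Subtype.ext
    show ⁅b.1, x.1 * y.1⁆ = ⁅b.1, x.1⁆ * ⁅b.1, y.1⁆
    have h : ⁅b.1, y.1⁆ ∈ Subgroup.center T := hc i j hij _ b.2 _ y.2
    have h2 := (Subgroup.mem_center_iff.1 h) x.1
    have : ⁅b.1, x.1 * y.1⁆ = ⁅b.1, x.1⁆ * (x.1 * ⁅b.1, y.1⁆ * (x.1)⁻¹) := by
      simp only [commutatorElement_def]; group
    rw [this, h2]; group)) (by
    intro a b
    refine MonoidHom.ext (fun x => ?_)
    apply Subtype.ext
    show ⁅a.1 * b.1, x.1⁆ = ⁅a.1, x.1⁆ * ⁅b.1, x.1⁆
    have h : ⁅b.1, x.1⁆ ∈ Subgroup.center T := hc i j hij _ b.2 _ x.2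
    have h2 := (Subgroup.mem_center_iff.1 h) a.1
    have h3 := (Subgroup.mem_center_iff.1 h) ⁅a.1, x.1⁆
    have : ⁅a.1 * b.1, x.1⁆ = (a.1 * ⁅b.1, x.1⁆ * (a.1)⁻¹) * ⁅a.1, x.1⁆ := by
      simp only [commutatorElement_def]; group
    rw [this, h2, h3]; group)

/-- The pairing on abelianizations. -/
def kpA (hc : ∀ i j, i ≠ j → ∀ b ∈ B i, ∀ b' ∈ B j, ⁅b, b'⁆ ∈ Subgroup.center T) (i j : ι)
    (hij : i ≠ j) : Abelianization (B i) →* (Abelianization (B j) →* ↥(Subgroup.center T)) :=
  Abelianization.lift (MonoidHom.mk' (fun b => Abelianization.lift (kp B hc i j hij b)) (by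
    intro a b
    refine Abelianization.hom_ext _ _ (MonoidHom.ext (fun x => ?_))
    simp only [MonoidHom.comp_apply, Abelianization.lift_apply_of, map_mul, MonoidHom.mul_apply]))

theorem kpA_of (hc : ∀ i j, i ≠ j → ∀ b ∈ B i, ∀ b' ∈ B j, ⁅b, b'⁆ ∈ Subgroup.center T) (i j : ι)
    (hij : i ≠ j) (b : B i) (b' : B j) :
    ((kpA B hc i j hij (Abelianization.of b) (Abelianization.of b') : Subgroup.center T) : T) =
      ⁅b.1, b'.1⁆ := by
  unfold kpA
  rw [Abelianization.lift_apply_of]
  show ((Abelianization.lift (kp B hc i j hij b) (Abelianization.of b') : _) : T) = _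
  rw [Abelianization.lift_apply_of]
  rfl

/-- The free sum of the abelianizations. -/
abbrev LL : Type := Π₀ i, Additive (Abelianization (B i))

open Classical in
/-- the inner pairing, additive. -/
noncomputable def kpL (hc : ∀ i j, i ≠ j → ∀ b ∈ B i, ∀ b' ∈ B j, ⁅b, b'⁆ ∈ Subgroup.center T)
    (i : ι) (a : Additive (Abelianization (B i))) :
    LL B →+ Additive ↥(Subgroup.center T) :=
  DFinsupp.liftAddHom (fun j => if h : WellOrderingRel i j then
    MonoidHom.toAdditive (kpA B hc i j (fun e => by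
      subst e; exact (irrefl_of WellOrderingRel _ h)) (Additive.toMul a)) else 0)

open Classical in
/-- the bilinear form -/
noncomputable def bF (hc : ∀ i j, i ≠ j → ∀ b ∈ B i, ∀ b' ∈ B j, ⁅b, b'⁆ ∈ Subgroup.center T) :
    LL B →+ LL B →+ Additive ↥(Subgroup.center T) :=
  DFinsupp.liftAddHom (fun i => AddMonoidHom.mk' (fun a => kpL B hc i a) (by
    intro x y
    refine DFinsupp.addHom_ext (fun j c => ?_)
    unfold kpL
    rw [AddMonoidHom.add_apply, DFinsupp.liftAddHom_apply_single,
      DFinsupp.liftAddHom_apply_single, DFinsupp.liftAddHom_apply_single]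
    split_ifs with h
    · rw [toMul_add, map_mul]
      rfl
    · simp))

open Classical in
theorem bF_single (hc : ∀ i j, i ≠ j → ∀ b ∈ B i, ∀ b' ∈ B j, ⁅b, b'⁆ ∈ Subgroup.center T)
    (i j : ι) (b : B i) (b' : B j) :
    ((Additive.toMul (bF B hc (DFinsupp.single i (Additive.ofMul (Abelianization.of b)))
      (DFinsupp.single j (Additive.ofMul (Abelianization.of b')))) : Subgroup.center T) : T) =
      if WellOrderingRel i j then ⁅b.1, b'.1⁆ else 1 := by
  unfold bF
  rw [DFinsupp.liftAddHom_apply_single]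
  show ((Additive.toMul (kpL B hc i _ _) : Subgroup.center T) : T) = _
  unfold kpL
  rw [DFinsupp.liftAddHom_apply_single]
  split_ifs with h
  · rw [← kpA_of B hc i j (fun e => by subst e; exact (irrefl_of WellOrderingRel _ h)) b b']
    rfl
  · rfl

/-- The class-two group. -/
abbrev HF (hc : ∀ i j, i ≠ j → ∀ b ∈ B i, ∀ b' ∈ B j, ⁅b, b'⁆ ∈ Subgroup.center T) : Type :=
  Hs (bF B hc)

theorem Hs_central {A L : Type} [AddCommGroup A] [AddCommGroup L] {B : L →+ L →+ A} (x : Hs B)
    (hx : x.v = 0) : x ∈ Subgroup.center (Hs B) := by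
  rw [Subgroup.mem_center_iff]
  intro g
  ext
  · simp only [Hs.mul_z, hx, map_zero, AddMonoidHom.zero_apply]; abel
  · simp [hx]

theorem Hs_two {A L : Type} [AddCommGroup A] [AddCommGroup L] (B : L →+ L →+ A) :
    commutator (Hs B) ≤ Subgroup.center (Hs B) := by
  rw [commutator_def, Subgroup.commutator_le]
  intro x _ y _
  exact Hs_central _ (Hs.comm_v x y)

theorem Hs_FC {A L : Type} [AddCommGroup A] [AddCommGroup L] (B : L →+ L →+ A)
    (h : ∀ v, (Set.range (fun c => B c v - B v c)).Finite) : IsFC (Hs B) := by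
  intro x
  refine ((h x.v).image (fun a => (⟨x.z + a, x.v⟩ : Hs B))).subset ?_
  rintro y hy
  obtain ⟨c, rfl⟩ := isConj_iff.mp hy
  refine ⟨_, ⟨c.v, rfl⟩, ?_⟩
  ext
  · simp only [Hs.mul_z, Hs.mul_v, Hs.inv_z, Hs.inv_v, map_add, map_neg, AddMonoidHom.add_apply]
    abel
  · simp only [Hs.mul_v, Hs.inv_v]; abel

/-- central values of commutators with `b` -/
def FF0 (b : T) : AddSubgroup (Additive ↥(Subgroup.center T)) where
  carrier := {a | ∃ t : T, ((Additive.toMul a : Subgroup.center T) : T) = ⁅t, b⁆}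
  zero_mem' := ⟨1, by simp⟩
  add_mem' := by
    rintro a a' ⟨t, ht⟩ ⟨t', ht'⟩
    refine ⟨t * t', ?_⟩
    have e : ⁅t * t', b⁆ = (t * ⁅t', b⁆ * t⁻¹) * ⁅t, b⁆ := by
      simp only [commutatorElement_def]; group
    have h2 := (Subgroup.mem_center_iff.1 (Additive.toMul a').2) t
    rw [toMul_add, Subgroup.coe_mul, e, ← ht, ← ht', h2, mul_inv_cancel_right]
    exact (Subgroup.mem_center_iff.1 (Additive.toMul a').2) _
  neg_mem' := by
    rintro a ⟨t, ht⟩
    refine ⟨t⁻¹, ?_⟩
    have e : ⁅t⁻¹, b⁆ = t⁻¹ * ⁅t, b⁆⁻¹ * t := by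
      simp only [commutatorElement_def]; group
    have h2 := (Subgroup.mem_center_iff.1 (inv_mem (Additive.toMul a).2)) t⁻¹
    rw [toMul_neg, Subgroup.coe_inv, e, ← ht, h2, inv_mul_cancel_right]

theorem FF0_finite (hT : IsFC T) (b : T) :
    (FF0 b : Set (Additive ↥(Subgroup.center T))).Finite := by
  have h1 : ((fun h : T => h * b⁻¹) '' {h : T | IsConj b h}).Finite := (hT b).image _
  have h2 : Set.InjOn (fun x : Additive ↥(Subgroup.center T) => ((Additive.toMul x : _) : T))
      ((fun x : Additive ↥(Subgroup.center T) => ((Additive.toMul x : _) : T)) ⁻¹'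
        ((fun h : T => h * b⁻¹) '' {h : T | IsConj b h})) := by
    intro x _ y _ h
    exact Subtype.ext h
  refine (h1.preimage h2).subset ?_
  rintro x ⟨t, ht⟩
  refine ⟨t * b * t⁻¹, isConj_iff.2 ⟨t, rfl⟩, ?_⟩
  show t * b * t⁻¹ * b⁻¹ = ((Additive.toMul x : ↥(Subgroup.center T)) : T)
  rw [ht, commutatorElement_def]

theorem HF_FC (hT : IsFC T)
    (hc : ∀ i j, i ≠ j → ∀ b ∈ B i, ∀ b' ∈ B j, ⁅b, b'⁆ ∈ Subgroup.center T) :
    IsFC (HF B hc) := by
  classical
  apply Hs_FC
  have hsub : AddSubgroup.closure (⋃ i, Set.range (DFinsupp.single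
      (β := fun i => Additive (Abelianization (B i))) i)) = ⊤ := by
    rw [eq_top_iff]
    intro x _
    have h1 := DFinsupp.add_closure_iUnion_range_single
      (β := fun i => Additive (Abelianization (B i)))
    have h2 : AddSubmonoid.closure (⋃ i, Set.range (DFinsupp.single
      (β := fun i => Additive (Abelianization (B i))) i)) ≤ (AddSubgroup.closure (⋃ i, Set.range
      (DFinsupp.single (β := fun i => Additive (Abelianization (B i))) i))).toAddSubmonoid := by
      rw [AddSubmonoid.closure_le]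
      exact AddSubgroup.subset_closure
    exact h2 (h1 ▸ AddSubmonoid.mem_top x)
  -- the set of v with finite range is a subgroup
  let V : AddSubgroup (LL B) :=
    { carrier := {v | (Set.range (fun c => bF B hc c v - bF B hc v c)).Finite}
      zero_mem' := by
        refine (Set.finite_singleton 0).subset ?_
        rintro _ ⟨c, rfl⟩
        simp
      add_mem' := by
        rintro v w hv hw
        refine (hv.add hw).subset ?_
        rintro _ ⟨c, rfl⟩
        refine ⟨_, ⟨c, rfl⟩, _, ⟨c, rfl⟩, ?_⟩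
        simp only [map_add, AddMonoidHom.add_apply]
        abel
      neg_mem' := by
        rintro v hv
        refine hv.neg.subset ?_
        rintro _ ⟨c, rfl⟩
        refine Set.mem_neg.mpr ⟨c, ?_⟩
        simp only [map_neg, AddMonoidHom.neg_apply]
        abel }
  suffices h : V = ⊤ by
    intro v
    have : v ∈ V := by rw [h]; trivial
    exact this
  rw [eq_top_iff, ← hsub, AddSubgroup.closure_le]
  intro v hv
  simp only [Set.mem_iUnion] at hv
  obtain ⟨j, a, rfl⟩ := hv
  obtain ⟨b, hb⟩ : ∃ b : B j, Additive.ofMul (Abelianization.of b) = a :=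
    QuotientGroup.mk_surjective a
  subst hb
  refine (FF0_finite hT b.1).subset ?_
  rintro _ ⟨c, rfl⟩
  have hcm : c ∈ (⊤ : AddSubgroup (LL B)) := trivial
  rw [← hsub] at hcm
  show bF B hc c _ - bF B hc _ c ∈ FF0 b.1
  induction hcm using AddSubgroup.closure_induction with
  | mem x hx =>
    simp only [Set.mem_iUnion] at hx
    obtain ⟨i, a, rfl⟩ := hx
    obtain ⟨b', hb'⟩ : ∃ b' : B i, Additive.ofMul (Abelianization.of b') = a :=
      QuotientGroup.mk_surjective a
    subst hb'
    have e1 := bF_single B hc i j b' b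
    have e2 := bF_single B hc j i b b'
    show ∃ t : T, _ = ⁅t, b.1⁆
    rw [toMul_sub, Subgroup.coe_div, e1, e2]
    rcases trichotomous_of WellOrderingRel i j with h | h | h
    · have h' : ¬ WellOrderingRel j i := asymm_of _ h
      rw [if_pos h, if_neg h', div_one]
      exact ⟨b'.1, rfl⟩
    · subst h
      have h' : ¬ WellOrderingRel i i := irrefl_of _ _
      rw [if_neg h', if_neg h']
      exact ⟨1, by simp⟩
    · have h' : ¬ WellOrderingRel i j := asymm_of _ h
      rw [if_pos h, if_neg h', one_div, commutatorElement_inv]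
      exact ⟨b'.1, rfl⟩
  | zero =>
    simp only [map_zero, AddMonoidHom.zero_apply, sub_self]
    exact AddSubgroup.zero_mem _
  | add x y _ _ hx hy =>
    have := AddSubgroup.add_mem _ hx hy
    simp only [map_add, AddMonoidHom.add_apply]
    convert this using 1
    abel
  | neg x _ hx =>
    have := AddSubgroup.neg_mem _ hx
    simp only [map_neg, AddMonoidHom.neg_apply]
    convert this using 1
    abel

theorem lemF {C : ∀ (G : Type) [Group G], Prop} (hC : Var C) (hT : IsFC T)
    (hB : ∀ i, C (B i))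
    (hc : ∀ i j, i ≠ j → ∀ b ∈ B i, ∀ b' ∈ B j, ⁅b, b'⁆ ∈ Subgroup.center T)
    (hgen : (⨆ i, B i) = ⊤) : C T := by
  classical
  let φ : ∀ i, B i →* HF B hc := fun i =>
    MonoidHom.mk' (fun b => ⟨0, DFinsupp.single i (Additive.ofMul (Abelianization.of b))⟩) (by
      intro a b
      apply Hs.ext
      · show (0 : Additive ↥(Subgroup.center T)) = 0 + 0 + bF B hc _ _
        have : bF B hc (DFinsupp.single i (Additive.ofMul (Abelianization.of a)))
            (DFinsupp.single i (Additive.ofMul (Abelianization.of b))) = 0 := by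
          have h1 := bF_single B hc i i a b
          rw [if_neg (irrefl_of _ _)] at h1
          exact Subtype.ext h1
        rw [this]; simp
      · show DFinsupp.single i _ = DFinsupp.single i _ + DFinsupp.single i _
        rw [← DFinsupp.single_add, map_mul]
        rfl)
  let A : Subgroup (HF B hc × T) :=
    { carrier := {q | q.1.v = 0 ∧ q.2 = ((Additive.toMul q.1.z : Subgroup.center T) : T)}
      one_mem' := ⟨rfl, rfl⟩
      mul_mem' := by
        rintro a b ⟨h1, h2⟩ ⟨h3, h4⟩
        refine ⟨?_, ?_⟩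
        · show a.1.v + b.1.v = 0
          rw [h1, h3, add_zero]
        · show a.2 * b.2 = ((Additive.toMul (a.1.z + b.1.z + bF B hc a.1.v b.1.v) : _) : T)
          rw [h1, map_zero, AddMonoidHom.zero_apply, add_zero, toMul_add, Subgroup.coe_mul, h2, h4]
      inv_mem' := by
        rintro a ⟨h1, h2⟩
        refine ⟨?_, ?_⟩
        · show - a.1.v = 0
          rw [h1, neg_zero]
        · show a.2⁻¹ = ((Additive.toMul (-a.1.z + bF B hc a.1.v a.1.v) : _) : T)
          rw [h1, map_zero, add_zero, toMul_neg, Subgroup.coe_inv, h2] }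
  have hAn : A.Normal := by
    refine ⟨?_⟩
    rintro ⟨p, t⟩ ⟨h1, h2⟩ ⟨g, s⟩
    have e1 := (Subgroup.mem_center_iff.mp (Hs_central p h1)) g
    have h2' : t = ((Additive.toMul p.z : Subgroup.center T) : T) := h2
    have e2 : s * t = t * s := by
      rw [h2']
      exact (Subgroup.mem_center_iff.mp (Additive.toMul p.z).2) s
    have : (g, s) * (p, t) * (g, s)⁻¹ = (p, t) := by
      apply Prod.ext
      · show g * p * g⁻¹ = p
        rw [e1, mul_inv_cancel_right]
      · show s * t * s⁻¹ = t
        rw [e2, mul_inv_cancel_right]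
    rw [this]
    exact ⟨h1, h2⟩
  refine hC.glue (fun i => B i) hB (P := HF B hc) (T := T)
    (classTwo hC (HF_FC B hT hc) (Hs_two _)) φ (fun i => (B i).subtype) A ?_ ?_ ?_
  · rintro t ⟨_, h⟩
    exact h
  · intro i j hij b b'
    refine ⟨Hs.comm_v _ _, ?_⟩
    show ⁅b.1, b'.1⁆ = ((Additive.toMul (⁅φ i b, φ j b'⁆ : HF B hc).z : _) : T)
    rw [Hs.comm_z]
    have e1 := bF_single B hc i j b b'
    have e2 := bF_single B hc j i b' b
    show _ = ((Additive.toMul (bF B hc (DFinsupp.single i (Additive.ofMul (Abelianization.of b)))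
      (DFinsupp.single j (Additive.ofMul (Abelianization.of b'))) -
      bF B hc (DFinsupp.single j (Additive.ofMul (Abelianization.of b')))
      (DFinsupp.single i (Additive.ofMul (Abelianization.of b)))) : Subgroup.center T) : T)
    rw [toMul_sub, Subgroup.coe_div, e1, e2]
    rcases trichotomous_of WellOrderingRel i j with h | h | h
    · have h' : ¬ WellOrderingRel j i := asymm_of _ h
      rw [if_pos h, if_neg h', div_one]
    · exact absurd h hij
    · have h' : ¬ WellOrderingRel i j := asymm_of _ h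
      rw [if_pos h, if_neg h', one_div, commutatorElement_inv]
  · rw [← hgen]
    congr 1
    funext i
    exact (B i).range_subtype

end lemF

end Pool.Agent.FCV
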