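import Pool.Agent.FCV.A4

set_option autoImplicit false

namespace Pool.Agent.FCV

open scoped commutatorElement Pointwise

section basics

variable {G : Type} [Group G]

theorem FCG.cent_fi (hFC : FCG G) (g : G) : (Subgroup.centralizer {g} : Subgroup G).FiniteIndex := by
  classical
  have hfin : Finite (G ⧸ (Subgroup.centralizer {g} : Subgroup G)) := by
    have := (hFC.fin g).to_subtype
    let f : G → {u | ∃ c, u = c⁻¹ * g * c} := fun x => ⟨x * g * x⁻¹, x⁻¹, by simp⟩
    have hf : ∀ x y : G, f x = f y → (x : G ⧸ (Subgroup.centralizer {g} : Subgroup G)) = y := by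
      intro x y hxy
      rw [QuotientGroup.eq, Subgroup.mem_centralizer_singleton_iff]
      have h1 : x * g * x⁻¹ = y * g * y⁻¹ := congrArg Subtype.val hxy
      calc x⁻¹ * y * g = x⁻¹ * (y * g * y⁻¹) * y := by group
        _ = x⁻¹ * (x * g * x⁻¹) * y := by rw [h1]
        _ = g * (x⁻¹ * y) := by group
    let F : G ⧸ (Subgroup.centralizer {g} : Subgroup G) → {u | ∃ c, u = c⁻¹ * g * c} :=
      fun q => f q.out
    apply Finite.of_injective F
    intro a b hab
    have := hf _ _ hab
    rwa [QuotientGroup.out_eq', QuotientGroup.out_eq'] at this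
  exact Subgroup.finiteIndex_of_finite_quotient

theorem FCG.sub (hFC : FCG G) (H : Subgroup G) : FCG H := by
  intro h
  refine ((hFC h.1).preimage (f := Subtype.val) Subtype.val_injective.injOn).subset ?_
  intro u hu
  obtain ⟨c, hc⟩ := isConj_iff.mp hu
  refine isConj_iff.mpr ⟨c.1, ?_⟩
  exact congrArg Subtype.val hc

theorem fi_comm (h : (Subgroup.center G).FiniteIndex) : Finite ↥(commutator G) := by
  classical
  have h1 : Finite (commutatorSet G) := by
    have hq : Finite (G ⧸ Subgroup.center G) := inferInstance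
    have : commutatorSet G ⊆ Set.range (fun p : (G ⧸ Subgroup.center G) × (G ⧸ Subgroup.center G) =>
        ⁅p.1.out, p.2.out⁆) := by
      rintro x ⟨a, b, rfl⟩
      have key : ∀ a : G, ∃ z ∈ Subgroup.center G, (a : G ⧸ Subgroup.center G).out = a * z := by
        intro a
        refine ⟨a⁻¹ * (a : G ⧸ Subgroup.center G).out, ?_, by group⟩
        rw [← QuotientGroup.eq, QuotientGroup.out_eq']
      obtain ⟨z, hz, hza⟩ := key a
      obtain ⟨w, hw, hwb⟩ := key b
      refine ⟨((a : G ⧸ Subgroup.center G), (b : G ⧸ Subgroup.center G)), ?_⟩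
      show ⁅(a : G ⧸ Subgroup.center G).out, (b : G ⧸ Subgroup.center G).out⁆ = ⁅a, b⁆
      rw [hza, hwb]
      have hz' := Subgroup.mem_center_iff.mp hz
      have hw' := Subgroup.mem_center_iff.mp hw
      simp only [commutatorElement_def, mul_inv_rev]
      calc a * z * (b * w) * (z⁻¹ * a⁻¹) * (w⁻¹ * b⁻¹)
          = a * ((z * (b * w) * z⁻¹)) * a⁻¹ * w⁻¹ * b⁻¹ := by group
        _ = a * (b * w) * a⁻¹ * w⁻¹ * b⁻¹ := by
            rw [← hz' (b * w)]; group
        _ = a * b * (w * a⁻¹ * w⁻¹) * b⁻¹ := by group
        _ = a * b * a⁻¹ * b⁻¹ := by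
            rw [← hw' a⁻¹]; group
    exact Set.Finite.to_subtype ((Set.finite_range _).subset this)
  infer_instance

theorem FCG.center_fi (hFC : FCG G) (hfg : Group.FG G) : (Subgroup.center G).FiniteIndex := by
  classical
  obtain ⟨S, hS⟩ := Group.fg_iff.mp hfg
  obtain ⟨hS, hfin⟩ := hS
  have h1 : (⨅ s ∈ hfin.toFinset, (Subgroup.centralizer {s} : Subgroup G)).FiniteIndex := by
    apply Subgroup.finiteIndex_iInf'
    intro s _
    exact hFC.cent_fi s
  refine Subgroup.finiteIndex_of_le (H := ⨅ s ∈ hfin.toFinset, (Subgroup.centralizer {s} : Subgroup G)) ?_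
  intro x hx
  have h2 : ∀ s ∈ S, s ∈ Subgroup.centralizer {x} := by
    intro s hs
    have := (Subgroup.mem_iInf.mp (Subgroup.mem_iInf.mp hx s)) (hfin.mem_toFinset.mpr hs)
    rw [Subgroup.mem_centralizer_singleton_iff] at this ⊢
    exact this.symm
  have h3 : (⊤ : Subgroup G) ≤ Subgroup.centralizer {x} := by
    rw [← hS, Subgroup.closure_le]
    exact h2
  rw [Subgroup.mem_center_iff]
  intro g
  exact (Subgroup.mem_centralizer_singleton_iff.mp (h3 (Subgroup.mem_top g)))

/-- Dietzmann's lemma for FC-groups -/
theorem FCG.nc_finite (hFC : FCG G) (S : Set G) (hS : S.Finite) (ht : ∀ s ∈ S, IsOfFinOrder s) :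
    ((Subgroup.normalClosure S : Subgroup G) : Set G).Finite := by
  classical
  have hconj : (Group.conjugatesOfSet S).Finite := by
    have : Group.conjugatesOfSet S = ⋃ s ∈ S, {h | IsConj s h} := by
      ext x
      simp only [Group.mem_conjugatesOfSet_iff, Set.mem_iUnion, exists_prop]
      rfl
    rw [this]
    exact Set.Finite.biUnion hS (fun s _ => hFC s)
  set F : Subgroup G := Subgroup.normalClosure S with hF
  have hFc : F = Subgroup.closure (Group.conjugatesOfSet S) := rfl
  have hfg : F.FG := by
    rw [Subgroup.fg_iff]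
    exact ⟨_, rfl, hconj⟩
  have hFfg : Group.FG F := (Group.fg_iff_subgroup_fg F).mpr hfg
  have hFF : FCG F := hFC.sub F
  have hc := fi_comm (hFF.center_fi hFfg)
  have htors : Monoid.IsTorsion (Abelianization F) := by
    have key : ∀ x (hx : x ∈ F), (Abelianization.of (⟨x, hx⟩ : F)) ∈
        CommGroup.torsion (Abelianization F) := by
      intro x hx
      have hx' : x ∈ Subgroup.closure (Group.conjugatesOfSet S) := hx
      induction hx' using Subgroup.closure_induction with
      | mem x hxm =>
        obtain ⟨s, hs, hsx⟩ := Group.mem_conjugatesOfSet_iff.mp hxm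
        obtain ⟨c, hc⟩ := isConj_iff.mp hsx
        obtain ⟨m, hm, hsm⟩ := (isOfFinOrder_iff_pow_eq_one.mp (ht s hs))
        show IsOfFinOrder _
        rw [isOfFinOrder_iff_pow_eq_one]
        refine ⟨m, hm, ?_⟩
        rw [← map_pow]
        have : (⟨x, hx⟩ : F) ^ m = 1 := by
          apply Subtype.ext
          show x ^ m = 1
          rw [← hc, conj_pow, hsm]; simp
        rw [this, map_one]
      | one => exact one_mem (CommGroup.torsion (Abelianization F))
      | mul x y hx1 hy1 ihx ihy =>
        have := mul_mem (ihx hx1) (ihy hy1)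
        rw [← map_mul] at this
        exact this
      | inv x hx1 ihx =>
        have := inv_mem (ihx hx1)
        rw [← map_inv] at this
        exact this
    intro a
    obtain ⟨⟨x, hx⟩, rfl⟩ := QuotientGroup.mk_surjective a
    exact key x hx
  have hab : Finite (Abelianization F) := by
    have : Group.FG (Abelianization F) :=
      Group.fg_of_surjective (f := (Abelianization.of : F →* _)) QuotientGroup.mk_surjective
    exact CommGroup.finite_of_fg_torsion _ htors
  have hfi : (commutator F).FiniteIndex := by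
    have : Finite (F ⧸ commutator F) := hab
    exact Subgroup.finiteIndex_of_finite_quotient
  have hFfin : Finite F := (Subgroup.finite_iff_finite_and_finiteIndex (commutator F)).mpr ⟨hc, hfi⟩
  exact Set.toFinite _

theorem FCG.comm_torsion (hFC : FCG G) (g : G) (hg : g ∈ commutator G) : IsOfFinOrder g := by
  rw [commutator_eq_closure] at hg
  induction hg using Subgroup.closure_induction with
  | mem x hx =>
    obtain ⟨a, b, rfl⟩ := hx
    set L : Subgroup G := Subgroup.closure {a, b} with hL
    have hfg : L.FG := by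
      rw [Subgroup.fg_iff]
      exact ⟨_, rfl, Set.toFinite _⟩
    have hLfg : Group.FG L := (Group.fg_iff_subgroup_fg L).mpr hfg
    have hc := fi_comm ((hFC.sub L).center_fi hLfg)
    have haL : a ∈ L := Subgroup.subset_closure (by simp)
    have hbL : b ∈ L := Subgroup.subset_closure (by simp)
    have hmem : ⁅(⟨a, haL⟩ : L), (⟨b, hbL⟩ : L)⁆ ∈ commutator L :=
      Subgroup.commutator_mem_commutator (Subgroup.mem_top _) (Subgroup.mem_top _)
    have h1 : IsOfFinOrder (⟨_, hmem⟩ : commutator L) := isOfFinOrder_of_finite _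
    have h2 := (L.subtype.comp (commutator L).subtype).isOfFinOrder h1
    exact h2
  | one => exact IsOfFinOrder.one
  | mul x y _ _ hx hy =>
    have h1 := hFC.nc_finite {x, y} (Set.toFinite _) (by
      rintro s hs
      rcases hs with rfl | hs
      · exact hx
      · rw [Set.mem_singleton_iff] at hs; subst hs; exact hy)
    have := h1.to_subtype
    have hxm : x * y ∈ Subgroup.normalClosure {x, y} :=
      mul_mem (Subgroup.subset_normalClosure (by simp)) (Subgroup.subset_normalClosure (by simp))
    have h2 : IsOfFinOrder (⟨_, hxm⟩ : (Subgroup.normalClosure {x, y} : Subgroup G)) :=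
      isOfFinOrder_of_finite _
    exact (Subgroup.subtype _).isOfFinOrder h2
  | inv x _ hx => exact hx.inv

theorem FCG.nc_comm_finite (hFC : FCG G) (S : Set G) (hS : S.Finite)
    (ht : ∀ s ∈ S, s ∈ commutator G) :
    ((Subgroup.normalClosure S : Subgroup G) : Set G).Finite :=
  hFC.nc_finite S hS (fun s hs => hFC.comm_torsion s (ht s hs))

end basics

end Pool.Agent.FCV
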