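import Pool.Agent.FCV.A5

set_option autoImplicit false

namespace Pool.Agent.FCV

open scoped commutatorElement Pointwise

section sd

variable {G : Type} [Group G]

theorem exists_reps (H : Subgroup G) (h : H.FiniteIndex) :
    ∃ T : Finset G, ∀ g, ∃ t ∈ T, t⁻¹ * g ∈ H := by
  classical
  have hfin : Finite (G ⧸ H) := inferInstance
  have := Fintype.ofFinite (G ⧸ H)
  refine ⟨Finset.univ.image (fun q : G ⧸ H => q.out), fun g => ⟨(g : G ⧸ H).out,
    Finset.mem_image_of_mem _ (Finset.mem_univ _), ?_⟩⟩
  rw [← QuotientGroup.eq, QuotientGroup.out_eq']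

/-- the conjugation action of `G` on the normal subgroup `M` -/
def QQ (M : Subgroup G) [M.Normal] : Subgroup (MulAut M) := (MulAut.conjNormal : G →* MulAut M).range

/-- the semidirect product -/
abbrev SD (M : Subgroup G) [M.Normal] : Type := M ⋊[(QQ M).subtype] (QQ M)

theorem QQ_finite (M : Subgroup G) [M.Normal] (hc : (Subgroup.centralizer (M : Set G)).FiniteIndex) :
    Finite (QQ M) := by
  have h1 : Subgroup.centralizer (M : Set G) ≤ (MulAut.conjNormal : G →* MulAut M).ker := by
    intro g hg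
    rw [MonoidHom.mem_ker]
    ext m
    rw [MulAut.conjNormal_apply]
    have := Subgroup.mem_centralizer_iff.mp hg m.1 m.2
    rw [← this]; simp
  have h2 : (MulAut.conjNormal : G →* MulAut M).ker.FiniteIndex := Subgroup.finiteIndex_of_le h1
  have h3 := Subgroup.index_ker (MulAut.conjNormal : G →* MulAut M)
  have h4 : Nat.card (QQ M) ≠ 0 := by
    unfold QQ
    rw [← h3]
    exact h2.index_ne_zero
  exact Nat.finite_of_card_ne_zero h4

theorem sd_fin (hFC : FCG G) (M : Subgroup G) [M.Normal]
    (hc : (Subgroup.centralizer (M : Set G)).FiniteIndex) : Finite ↥(commutator (SD M)) := by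
  classical
  apply fi_comm
  obtain ⟨T, hT⟩ := exists_reps _ hc
  have hQ := QQ_finite M hc
  set Z' : Subgroup M := (Subgroup.center G).subgroupOf M with hZ'
  have hZfi : Z'.FiniteIndex := by
    have h1 : (⨅ t ∈ T, ((Subgroup.centralizer {t} : Subgroup G).subgroupOf M)).FiniteIndex := by
      apply Subgroup.finiteIndex_iInf'
      intro t _
      have := hFC.cent_fi t
      infer_instance
    refine Subgroup.finiteIndex_of_le
      (H := ⨅ t ∈ T, ((Subgroup.centralizer {t} : Subgroup G).subgroupOf M)) ?_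
    intro m hm
    rw [hZ', Subgroup.mem_subgroupOf, Subgroup.mem_center_iff]
    intro g
    obtain ⟨t, ht, htg⟩ := hT g
    have h2 := Subgroup.mem_iInf.mp (Subgroup.mem_iInf.mp hm t) ht
    rw [Subgroup.mem_subgroupOf, Subgroup.mem_centralizer_singleton_iff] at h2
    have h3 := Subgroup.mem_centralizer_iff.mp htg m.1 m.2
    calc g * m.1 = t * (t⁻¹ * g * m.1) := by group
      _ = t * (m.1 * (t⁻¹ * g)) := by rw [← h3]
      _ = (t * m.1) * (t⁻¹ * g) := by group
      _ = (m.1 * t) * (t⁻¹ * g) := by rw [← h2]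
      _ = m.1 * g := by group
  have h5 : (Z'.map (SemidirectProduct.inl : M →* SD M)).FiniteIndex := by
    constructor
    have h6 : Z'.map (SemidirectProduct.inl : M →* SD M) ≤
        (⊤ : Subgroup M).map (SemidirectProduct.inl : M →* SD M) := Subgroup.map_mono le_top
    rw [← Subgroup.relIndex_mul_index h6,
      Subgroup.relIndex_map_map_of_injective _ _ SemidirectProduct.inl_injective,
      Subgroup.relIndex_top_right, ← MonoidHom.range_eq_map,
      SemidirectProduct.range_inl_eq_ker_rightHom, Subgroup.index_ker]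
    refine mul_ne_zero hZfi.index_ne_zero ?_
    exact Nat.card_ne_zero.mpr ⟨inferInstance, inferInstance⟩
  refine Subgroup.finiteIndex_of_le (H := Z'.map (SemidirectProduct.inl : M →* SD M)) ?_
  rintro _ ⟨m, hm, rfl⟩
  have hm' : m.1 ∈ Subgroup.center G := hm
  have hmc : ∀ g : G, g * m.1 = m.1 * g := Subgroup.mem_center_iff.mp hm'
  rw [Subgroup.mem_center_iff]
  intro s
  apply SemidirectProduct.ext
  · rw [SemidirectProduct.mul_left, SemidirectProduct.mul_left]
    obtain ⟨g, hg⟩ := s.right.2
    have h7 : ((QQ M).subtype s.right) m = m := by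
      show s.right.1 m = m
      rw [← hg]
      apply Subtype.ext
      rw [MulAut.conjNormal_apply, hmc g]; simp
    rw [SemidirectProduct.left_inl, SemidirectProduct.right_inl, h7, map_one, MulAut.one_apply]
    apply Subtype.ext
    exact hmc _
  · simp

end sd

section chain

variable {G : Type} [Group G]

theorem centralizer_nc_fi (hFC : FCG G) (S : Set G) (hS : S.Finite) :
    (Subgroup.centralizer ((Subgroup.normalClosure S : Subgroup G) : Set G)).FiniteIndex := by
  classical
  have hconj : (Group.conjugatesOfSet S).Finite := by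
    have : Group.conjugatesOfSet S = ⋃ s ∈ S, {h | IsConj s h} := by
      ext x
      simp only [Group.mem_conjugatesOfSet_iff, Set.mem_iUnion, exists_prop]
      rfl
    rw [this]
    exact Set.Finite.biUnion hS (fun s _ => hFC s)
  have h0 : Subgroup.centralizer ((Subgroup.normalClosure S : Subgroup G) : Set G) =
      Subgroup.centralizer (Group.conjugatesOfSet S) := Subgroup.centralizer_closure _
  rw [h0]
  have h1 : (⨅ s ∈ hconj.toFinset, (Subgroup.centralizer {s} : Subgroup G)).FiniteIndex := by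
    apply Subgroup.finiteIndex_iInf'
    intro s _
    exact hFC.cent_fi s
  refine Subgroup.finiteIndex_of_le
    (H := ⨅ s ∈ hconj.toFinset, (Subgroup.centralizer {s} : Subgroup G)) ?_
  intro x hx
  rw [Subgroup.mem_centralizer_iff]
  intro s hs
  have := (Subgroup.mem_iInf.mp (Subgroup.mem_iInf.mp hx s)) (hconj.mem_toFinset.mpr hs)
  rw [Subgroup.mem_centralizer_singleton_iff] at this
  exact this.symm

/-- The chain in a countable FC-group. -/
theorem exists_chain (hFC : FCG G) [Countable G] :
    ∃ L : ℕ → Subgroup G, (∀ n, (L n).Normal) ∧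
      (∀ n, (Subgroup.centralizer ((L n : Subgroup G) : Set G)).FiniteIndex) ∧
      (L 0 = ⊥) ∧ (L 1 = ⊥) ∧ (∀ n, L n ≤ L (n+1)) ∧ (∀ g, ∃ n, g ∈ L n) ∧
      ∀ n, ∀ g, ∃ l ∈ L (n+1), l⁻¹ * g ∈ Subgroup.centralizer ((L n : Subgroup G) : Set G) := by
  classical
  obtain ⟨e, he⟩ := exists_surjective_nat G
  have hT : ∀ F : Finset G, ∃ T : Finset G, ∀ g, ∃ t ∈ T, t⁻¹ * g ∈
      Subgroup.centralizer ((Subgroup.normalClosure (F : Set G) : Subgroup G) : Set G) :=
    fun F => exists_reps _ (centralizer_nc_fi hFC _ F.finite_toSet)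
  choose T hT using hT
  obtain ⟨F, hF0, hFs⟩ : ∃ F : ℕ → Finset G, F 0 = ∅ ∧ ∀ n, F (n+1) = F n ∪ {e n} ∪ T (F n) :=
    ⟨fun n => Nat.rec ∅ (fun n F => F ∪ {e n} ∪ T F) n, rfl, fun n => rfl⟩
  obtain ⟨F', h0, h1, h2⟩ : ∃ F' : ℕ → Finset G, F' 0 = ∅ ∧ F' 1 = ∅ ∧ ∀ n, F' (n+2) = F (n+1) :=
    ⟨fun n => F (n-1), hF0, hF0, fun n => rfl⟩
  have h2' : ∀ n, F' (n+1) = F n := by
    intro n
    rcases n with _ | n
    · rw [hF0]; exact h1
    · exact h2 n
  have hnc : Subgroup.normalClosure ((∅ : Finset G) : Set G) = ⊥ := by simp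
  refine ⟨fun n => Subgroup.normalClosure (F' n : Set G),
    fun n => Subgroup.normalClosure_normal,
    fun n => centralizer_nc_fi hFC (F' n : Set G) (F' n).finite_toSet,
    ?_, ?_, ?_, ?_, ?_⟩
  · simp only [h0, hnc]
  · simp only [h1, hnc]
  · intro n
    apply Subgroup.normalClosure_mono
    rcases n with _ | n
    · rw [h0, h1]
    · rw [h2' n, h2 n, hFs]
      intro x hx
      simp only [Finset.coe_union, Set.mem_union]
      exact Or.inl (Or.inl hx)
  · intro g
    obtain ⟨n, rfl⟩ := he g
    refine ⟨n + 2, Subgroup.subset_normalClosure ?_⟩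
    rw [h2 n, hFs]
    simp
  · intro n g
    rcases n with _ | n
    · refine ⟨1, one_mem _, ?_⟩
      simp only [h0, hnc]
      rw [Subgroup.mem_centralizer_iff]
      intro h hh
      have : h = 1 := hh
      rw [this]; simp
    · obtain ⟨t, ht, htg⟩ := hT (F n) g
      refine ⟨t, Subgroup.subset_normalClosure ?_, ?_⟩
      · rw [h2 n, hFs]
        simp [ht]
      · simp only [h2' n]
        exact htg

end chain

end Pool.Agent.FCV
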