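import Pool.Agent.FCV.A6

set_option autoImplicit false

namespace Pool.Agent.FCV

open scoped commutatorElement Pointwise

section two

variable {C : ∀ (G : Type) [Group G], Prop}

theorem Var.subdirect3 (hC : Var C) {ι κ : Type} (K : ι → Type) [∀ i, Group (K i)]
    (hK : ∀ i, C (K i)) (K' : κ → Type) [∀ i, Group (K' i)]
    (hK' : ∀ i, C (K' i)) {S T : Type} [Group S] [Group T] (f : ∀ i, S →* K i)
    (f' : ∀ i, S →* K' i)
    (hfin : ∀ s, {i | f i s ≠ 1}.Finite) (hfin' : ∀ s, {i | f' i s ≠ 1}.Finite)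
    (g : S →* T) (hg : Function.Surjective g)
    (hk : ∀ s, (∀ i, f i s = 1) → (∀ i, f' i s = 1) → g s = 1) : C T := by
  classical
  let F : S →* ↥(⨆ i, (MonoidHom.mulSingle K i).range) :=
    MonoidHom.mk' (fun s => ⟨fun i => f i s, mem_restricted K _ (hfin s)⟩) (by
      intro a b
      apply Subtype.ext
      funext i
      exact map_mul (f i) a b)
  let F' : S →* ↥(⨆ i, (MonoidHom.mulSingle K' i).range) :=
    MonoidHom.mk' (fun s => ⟨fun i => f' i s, mem_restricted K' _ (hfin' s)⟩) (by
      intro a b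
      apply Subtype.ext
      funext i
      exact map_mul (f' i) a b)
  refine hC.sec (F.prod F') g hg ?_ (hC.prod2 (hC.prod _ K hK) (hC.prod _ K' hK'))
  intro s hs
  have hs1 : F s = 1 := congrArg Prod.fst hs
  have hs2 : F' s = 1 := congrArg Prod.snd hs
  refine hk s ?_ ?_
  · intro i
    exact congrFun (congrArg Subtype.val hs1) i
  · intro i
    exact congrFun (congrArg Subtype.val hs2) i

end two

/-- finitely supported families -/
def finSub {ι : Type} (K : ι → Type) [∀ i, Group (K i)] : Subgroup (∀ i, K i) where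
  carrier := {s | {i | s i ≠ 1}.Finite}
  one_mem' := by simp
  mul_mem' := by
    intro a b ha hb
    refine (ha.union hb).subset ?_
    intro i hi
    by_contra hcon
    apply hi
    simp only [Set.mem_union, Set.mem_ofPred_eq, not_or, not_not] at hcon
    show a i * b i = 1
    rw [hcon.1, hcon.2, one_mul]
  inv_mem' := by
    intro a ha
    refine Set.Finite.subset ha ?_
    intro i hi hcon
    apply hi
    show (a i)⁻¹ = 1
    rw [hcon, inv_one]

theorem mulSingle_finSub {ι : Type} [DecidableEq ι] (K : ι → Type) [∀ i, Group (K i)] (i : ι)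
    (b : K i) : Pi.mulSingle i b ∈ finSub K := by
  refine (Set.finite_singleton i).subset ?_
  intro j hj
  by_contra hne
  apply hj
  exact Pi.mulSingle_eq_of_ne hne b

section countable

variable {G : Type} [Group G] (L : ℕ → Subgroup G)

/-- the pieces -/
def MM (n : ℕ) : Subgroup G := L (n+2) ⊓ Subgroup.centralizer ((L n : Subgroup G) : Set G)

theorem MM_normal (hn : ∀ n, (L n).Normal) (n : ℕ) : (MM L n).Normal := by
  have := hn n
  have := hn (n+2)
  unfold MM
  infer_instance

theorem MM_comm (hmono : ∀ n, L n ≤ L (n+1)) (n m : ℕ) (h : n + 2 ≤ m) {x y : G}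
    (hx : x ∈ MM L n) (hy : y ∈ MM L m) : x * y = y * x := by
  have hmono' : Monotone L := monotone_nat_of_le_succ hmono
  exact Subgroup.mem_centralizer_iff.mp hy.2 x (hmono' h hx.1)

theorem MM_comm' (hmono : ∀ n, L n ≤ L (n+1)) (n m : ℕ) (h : n + 2 ≤ m ∨ m + 2 ≤ n) {x y : G}
    (hx : x ∈ MM L n) (hy : y ∈ MM L m) : x * y = y * x := by
  rcases h with h | h
  · exact MM_comm L hmono n m h hx hy
  · exact (MM_comm L hmono m n h hy hx).symm

theorem MM_fi (hfi : ∀ n, (Subgroup.centralizer ((L n : Subgroup G) : Set G)).FiniteIndex) (n : ℕ) :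
    (Subgroup.centralizer ((MM L n : Subgroup G) : Set G)).FiniteIndex := by
  have := hfi (n+2)
  refine Subgroup.finiteIndex_of_le
    (H := Subgroup.centralizer ((L (n+2) : Subgroup G) : Set G)) ?_
  apply Subgroup.centralizer_le
  intro x hx
  exact hx.1

theorem MM_gen (h1 : L 1 = ⊥) (hall : ∀ g, ∃ n, g ∈ L n)
    (hdec : ∀ n, ∀ g, ∃ l ∈ L (n+1), l⁻¹ * g ∈ Subgroup.centralizer ((L n : Subgroup G) : Set G))
    (h0 : L 0 = ⊥) (hmono : ∀ n, L n ≤ L (n+1)) (S : Subgroup G) (hS : ∀ n, MM L n ≤ S) : S = ⊤ := by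
  have key : ∀ n, L n ≤ S := by
    intro n
    induction n with
    | zero => rw [h0]; exact bot_le
    | succ n ih =>
      rcases n with _ | n
      · rw [h1]; exact bot_le
      · intro g hg
        obtain ⟨l, hl, hlg⟩ := hdec n g
        have h3 : l⁻¹ * g ∈ MM L n := ⟨(L (n+2)).mul_mem ((L (n+2)).inv_mem (hmono _ hl)) hg, hlg⟩
        have : g = l * (l⁻¹ * g) := by group
        rw [this]
        exact mul_mem (ih hl) (hS n h3)
  rw [eq_top_iff]
  intro g _
  obtain ⟨n, hn⟩ := hall g
  exact key n hn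

end countable

section countable2

variable {G : Type} [Group G] {C : ∀ (G : Type) [Group G], Prop}

theorem Var.ofPieces (hC : Var C) (M : ℕ → Subgroup G) [∀ n, (M n).Normal]
    (hcomm : ∀ n m, (n + 2 ≤ m ∨ m + 2 ≤ n) → ∀ x ∈ M n, ∀ y ∈ M m, x * y = y * x)
    (hSD : ∀ n, C (SD (M n))) (hM : ∀ n, C (M n))
    (hgen : ∀ S : Subgroup G, (∀ n, M n ≤ S) → S = ⊤) : C G := by
  classical
  let c : ∀ j, G →* QQ (M (2*j)) := fun j => (MulAut.conjNormal : G →* MulAut (M (2*j))).rangeRestrict
  have hc_one : ∀ j, ∀ g, (∀ x ∈ M (2*j), g * x = x * g) → c j g = 1 := by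
    intro j g hg
    apply Subtype.ext
    ext m
    show ((MulAut.conjNormal g m : M (2*j)) : G) = m.1
    rw [MulAut.conjNormal_apply, hg m.1 m.2]; simp
  let K : Type := (∀ j, SD (M (2*j))) × ((∀ j, M (2*j+1)) × G)
  let E : ∀ k, M (2*k) →* (∀ j, SD (M (2*j))) × ((∀ j, M (2*j+1)) × G) := fun k =>
    ((MonoidHom.mulSingle (fun j => SD (M (2*j))) k).comp SemidirectProduct.inl).prod
      ((1 : M (2*k) →* (∀ j, M (2*j+1))).prod (M (2*k)).subtype)
  let O : ∀ k, M (2*k+1) →* (∀ j, SD (M (2*j))) × ((∀ j, M (2*j+1)) × G) := fun k =>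
    (MonoidHom.pi (fun j => (SemidirectProduct.inr : QQ (M (2*j)) →* SD (M (2*j))).comp
      ((c j).comp (M (2*k+1)).subtype))).prod
      ((MonoidHom.mulSingle (fun j => M (2*j+1)) k).prod (M (2*k+1)).subtype)
  set RE : Subgroup ((∀ j, SD (M (2*j))) × ((∀ j, M (2*j+1)) × G)) := ⨆ k, (E k).range with hRE
  set RO : Subgroup ((∀ j, SD (M (2*j))) × ((∀ j, M (2*j+1)) × G)) := ⨆ k, (O k).range with hRO
  have hEmem : ∀ k b, E k b ∈ RE := fun k b => (le_iSup (fun k => (E k).range) k) ⟨b, rfl⟩
  have hOmem : ∀ k b, O k b ∈ RO := fun k b => (le_iSup (fun k => (O k).range) k) ⟨b, rfl⟩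
  -- conjugation
  have hconj : ∀ k (o : M (2*k+1)) j (e : M (2*j)),
      O k o * E j e * (O k o)⁻¹ = E j (MulAut.conjNormal o.1 e) := by
    intro k o j e
    apply Prod.ext
    · funext i
      show SemidirectProduct.inr (c i o.1) * Pi.mulSingle (M := fun j => SD (M (2*j))) j
        (SemidirectProduct.inl e) i *
        (SemidirectProduct.inr (c i o.1))⁻¹ = Pi.mulSingle (M := fun j => SD (M (2*j))) j
        (SemidirectProduct.inl (MulAut.conjNormal o.1 e)) i
      by_cases hij : i = j
      · subst hij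
        rw [Pi.mulSingle_eq_same, Pi.mulSingle_eq_same, ← map_inv, ← SemidirectProduct.inl_aut]
        rfl
      · rw [Pi.mulSingle_eq_of_ne hij, Pi.mulSingle_eq_of_ne hij]
        simp
    · apply Prod.ext
      · show Pi.mulSingle k o * 1 * (Pi.mulSingle k o)⁻¹ = (1 : ∀ j, M (2*j+1))
        simp
      · show o.1 * e.1 * (o.1)⁻¹ = ((MulAut.conjNormal o.1 e : M (2*j)) : G)
        rw [MulAut.conjNormal_apply]
  have hnorm : RO ≤ Subgroup.normalizer (RE : Set _) := by
    have key : ∀ k (o : M (2*k+1)), ∀ y ∈ RE, O k o * y * (O k o)⁻¹ ∈ RE := by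
      intro k o y hy
      have : RE ≤ RE.comap (MulAut.conj (O k o)).toMonoidHom := by
        rw [hRE]
        refine iSup_le ?_
        rintro j _ ⟨e, rfl⟩
        rw [Subgroup.mem_comap]
        show MulAut.conj (O k o) (E j e) ∈ _
        rw [MulAut.conj_apply, hconj]
        exact hEmem _ _
      exact this hy
    rw [hRO]
    refine iSup_le ?_
    rintro k _ ⟨o, rfl⟩
    rw [Subgroup.mem_normalizer_iff]
    intro y
    constructor
    · exact key k o y
    · intro h
      have := key k o⁻¹ _ h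
      rw [map_inv] at this
      simpa [mul_assoc] using this
  set S : Subgroup ((∀ j, SD (M (2*j))) × ((∀ j, M (2*j+1)) × G)) := RE ⊔ RO with hS
  have hSdec : ∀ s ∈ S, ∃ e ∈ RE, ∃ o ∈ RO, s = e * o := by
    intro s hs
    have h1 : s ∈ (RE : Set ((∀ j, SD (M (2*j))) × ((∀ j, M (2*j+1)) × G))) *
        (RO : Set ((∀ j, SD (M (2*j))) × ((∀ j, M (2*j+1)) × G))) := by
      rw [← Subgroup.coe_mul_of_right_le_normalizer_left _ _ hnorm]
      exact hs
    obtain ⟨e, he, o, ho, rfl⟩ := Set.mem_mul.mp h1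
    exact ⟨e, he, o, ho, rfl⟩
  refine hC.subdirect3 (S := S) (fun j => SD (M (2*j))) (fun j => hSD _)
    (fun j => M (2*j+1)) (fun j => hM _)
    (fun i => (Pi.evalMonoidHom _ i).comp ((MonoidHom.fst _ _).comp S.subtype))
    (fun i => (Pi.evalMonoidHom _ i).comp ((MonoidHom.fst (∀ j, M (2*j+1)) G).comp
      ((MonoidHom.snd _ _).comp S.subtype))) ?_ ?_
    ((MonoidHom.snd (∀ j, M (2*j+1)) G).comp ((MonoidHom.snd _ _).comp S.subtype)) ?_ ?_
  · rintro ⟨s, hs⟩
    show {i | s.1 i ≠ 1}.Finite
    have : S ≤ (finSub (fun j => SD (M (2*j)))).comap (MonoidHom.fst _ _) := by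
      rw [hS]
      refine sup_le (iSup_le ?_) (iSup_le ?_)
      · rintro k _ ⟨e, rfl⟩
        exact mulSingle_finSub _ k _
      · rintro k _ ⟨o, rfl⟩
        show {j | SemidirectProduct.inr (c j o.1) ≠ (1 : SD (M (2*j)))}.Finite
        refine (Set.toFinite {k, k+1}).subset ?_
        intro j hj
        by_contra hne
        apply hj
        simp only [Set.mem_insert_iff, Set.mem_singleton_iff, not_or] at hne
        rw [hc_one j o.1, map_one]
        intro x hx
        exact hcomm (2*k+1) (2*j) (by omega) _ o.2 _ hx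
    exact this hs
  · rintro ⟨s, hs⟩
    show {i | s.2.1 i ≠ 1}.Finite
    have : S ≤ (finSub (fun j => M (2*j+1))).comap ((MonoidHom.fst (∀ j, M (2*j+1)) G).comp
        (MonoidHom.snd _ _)) := by
      rw [hS]
      refine sup_le (iSup_le ?_) (iSup_le ?_)
      · rintro k _ ⟨e, rfl⟩
        exact one_mem (finSub (fun j => M (2*j+1)))
      · rintro k _ ⟨o, rfl⟩
        exact mulSingle_finSub _ k _
    exact this hs
  · intro t
    have h1 := hgen ((MonoidHom.snd (∀ j, M (2*j+1)) G).comp
      ((MonoidHom.snd _ _).comp S.subtype)).range (by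
      intro n
      rcases Nat.even_or_odd' n with ⟨k, hk | hk⟩
      · subst hk
        intro x hx
        exact ⟨⟨E k ⟨x, hx⟩, (le_sup_left : RE ≤ S) (hEmem k _)⟩, rfl⟩
      · subst hk
        intro x hx
        exact ⟨⟨O k ⟨x, hx⟩, (le_sup_right : RO ≤ S) (hOmem k _)⟩, rfl⟩)
    have : t ∈ (⊤ : Subgroup G) := trivial
    rw [← h1] at this
    exact this
  · rintro ⟨s, hs⟩ h1 h2
    obtain ⟨e, he, o, ho, rfl⟩ := hSdec s hs
    -- the odd part vanishes
    have he2 : e.2.1 = 1 := by
      have : RE ≤ ((MonoidHom.fst (∀ j, M (2*j+1)) G).comp (MonoidHom.snd (∀ j, SD (M (2*j))) _)).ker := by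
        rw [hRE]
        refine iSup_le ?_
        rintro k _ ⟨b, rfl⟩
        rfl
      exact this he
    have ho2 : ∀ i, o.2.1 i = 1 := by
      intro i
      have : (e * o).2.1 i = 1 := h2 i
      have e' : (e * o).2.1 i = e.2.1 i * o.2.1 i := rfl
      rw [e', he2] at this
      simpa using this
    have hbot : ∀ a ∈ (⊥ : Subgroup ((∀ j, SD (M (2*j))) × ((∀ j, M (2*j+1)) × G))), a = 1 :=
      fun a ha => ha
    have ho3 : o = 1 := by
      apply hbot
      refine comm_family O ⊥ ?_ (D := fun j => M (2*j+1))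
        (fun i => (Pi.evalMonoidHom _ i).comp ((MonoidHom.fst (∀ j, M (2*j+1)) G).comp
          (MonoidHom.snd _ _))) ?_ ?_ ?_ o ((le_sup_left : RO ≤ RO ⊔ ⊥) ho) ho2
      · intro i j hij b b'
        rw [Subgroup.mem_bot, commutatorElement_eq_one_iff_mul_comm]
        have hbb : b.1 * b'.1 = b'.1 * b.1 := hcomm (2*i+1) (2*j+1) (by omega) _ b.2 _ b'.2
        apply Prod.ext
        · funext k
          show SemidirectProduct.inr (c k b.1) * SemidirectProduct.inr (c k b'.1) =
            SemidirectProduct.inr (c k b'.1) * (SemidirectProduct.inr (c k b.1) : SD (M (2*k)))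
          rw [← map_mul, ← map_mul, ← map_mul, ← map_mul, hbb]
        · apply Prod.ext
          · exact Pi.mulSingle_commute (f := fun j => ↥(M (2*j+1))) hij b b'
          · exact hbb
      · rintro i a ha
        rw [hbot a ha, map_one]
      · intro i j hij b
        exact Pi.mulSingle_eq_of_ne (M := fun j => ↥(M (2*j+1))) hij b
      · intro i b hb
        have : Pi.mulSingle (M := fun j => M (2*j+1)) i b i = 1 := hb
        rwa [Pi.mulSingle_eq_same] at this
    have he3 : e = 1 := by
      apply hbot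
      refine comm_family E ⊥ ?_ (D := fun j => SD (M (2*j)))
        (fun i => (Pi.evalMonoidHom _ i).comp (MonoidHom.fst _ _)) ?_ ?_ ?_ e
        ((le_sup_left : RE ≤ RE ⊔ ⊥) he) ?_
      · intro i j hij b b'
        rw [Subgroup.mem_bot, commutatorElement_eq_one_iff_mul_comm]
        have hbb : b.1 * b'.1 = b'.1 * b.1 := hcomm (2*i) (2*j) (by omega) _ b.2 _ b'.2
        apply Prod.ext
        · exact Pi.mulSingle_commute (f := fun j => SD (M (2*j))) hij _ _
        · apply Prod.ext
          · rfl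
          · exact hbb
      · rintro i a ha
        rw [hbot a ha, map_one]
      · intro i j hij b
        exact Pi.mulSingle_eq_of_ne (M := fun j => SD (M (2*j))) hij _
      · intro i b hb
        have : Pi.mulSingle (M := fun j => SD (M (2*j))) i (SemidirectProduct.inl b) i = 1 := hb
        rw [Pi.mulSingle_eq_same] at this
        exact SemidirectProduct.inl_injective (this.trans (map_one _).symm)
      · intro i
        have h11 : (e * o).1 i = 1 := h1 i
        rw [ho3, mul_one] at h11
        exact h11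
    show (e * o).2.2 = 1
    rw [he3, ho3]; simp

end countable2

theorem countable_case {C : ∀ (G : Type) [Group G], Prop} (hC : Var C) {G : Type} [Group G]
    (hFC : FCG G) [Countable G] : C G := by
  obtain ⟨L, hn, hfi, h0, h1, hmono, hall, hdec⟩ := exists_chain hFC
  have hn' : ∀ n, (MM L n).Normal := MM_normal L hn
  have hsd : ∀ n, C (SD (MM L n)) := fun n => hC.fin _ (sd_fin hFC (MM L n) (MM_fi L hfi n))
  refine hC.ofPieces (MM L) (fun n m h x hx y hy => MM_comm' L hmono n m h hx hy) hsd ?_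
    (fun S hS => MM_gen L h1 hall hdec h0 hmono S hS)
  intro n
  exact hC.inj (SemidirectProduct.inl : MM L n →* SD (MM L n)) SemidirectProduct.inl_injective
    (hsd n)

end Pool.Agent.FCV
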