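import Pool.Agent.FCV.A7

set_option autoImplicit false

namespace Pool.Agent.FCV

open scoped commutatorElement Pointwise

section ultra

variable {G : Type} [Group G]

/-- finite approximation -/
theorem approx [LinearOrder (XX G)] (E : Finset (XX G)) (W : Finset G) :
    ∃ c : XX G → G, (∀ x ∈ E, ∀ w ∈ W, x.1 w = (c x)⁻¹ * w * c x) ∧
      ∀ x ∈ E, ∀ y ∈ E, x < y → y.1 (c x) = (c y)⁻¹ * c x * c y := by
  classical
  induction E using Finset.induction_on_max with
  | empty => exact ⟨fun _ => 1, by simp, by simp⟩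
  | insert y E hmax ih =>
    obtain ⟨c, h1, h2⟩ := ih
    obtain ⟨d, hd⟩ := y.2.1 (W ∪ E.image c)
    have hyE : ∀ x ∈ E, x ≠ y := fun x hx => (hmax x hx).ne
    refine ⟨Function.update c y d, ?_, ?_⟩
    · intro x hx w hw
      rcases Finset.mem_insert.mp hx with rfl | hx
      · rw [Function.update_self]
        exact hd w (Finset.mem_union_left _ hw)
      · rw [Function.update_of_ne (hyE x hx)]
        exact h1 x hx w hw
    · intro x hx z hz hxz
      rcases Finset.mem_insert.mp hz with rfl | hz'
      · rcases Finset.mem_insert.mp hx with rfl | hx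
        · exact absurd hxz (lt_irrefl _)
        · rw [Function.update_self, Function.update_of_ne (hyE x hx)]
          exact hd _ (Finset.mem_union_right _ (Finset.mem_image_of_mem _ hx))
      · rcases Finset.mem_insert.mp hx with rfl | hx
        · exact absurd (hmax z hz') (not_lt.mpr hxz.le)
        · rw [Function.update_of_ne (hyE x hx), Function.update_of_ne (hyE z hz')]
          exact h2 x hx z hz' hxz

theorem exists_Q :
    ∃ (Q : Type) (_ : Group Q) (i : G →* Q) (q : XX G → Q), Function.Injective i ∧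
      (∀ z ∈ Subgroup.center G, ∀ u : Q, i z * u = u * i z) ∧
      (∀ x g, (q x)⁻¹ * i g * q x = i (x.1 g)) ∧
      ∀ x y, ∃ t ∈ commutator G, (q x)⁻¹ * (q y)⁻¹ * q x * q y = i t := by
  classical
  let _ : LinearOrder (XX G) := linearOrderOfSTO WellOrderingRel
  choose c hc1 hc2 using fun p : Finset (XX G) × Finset G => approx p.1 p.2
  let U : Ultrafilter (Finset (XX G) × Finset G) := Ultrafilter.of Filter.atTop
  have hU : (U : Filter (Finset (XX G) × Finset G)) ≤ Filter.atTop := Ultrafilter.of_le _
  let i : G →* Filter.Germ (U : Filter (Finset (XX G) × Finset G)) G :=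
    (Filter.Germ.coeMulHom (U : Filter (Finset (XX G) × Finset G))).comp
      (MonoidHom.mk' (fun g => fun _ => g) (fun a b => rfl))
  have hiapp : ∀ g, i g = ((fun _ => g : (Finset (XX G) × Finset G) → G) :
      Filter.Germ (U : Filter (Finset (XX G) × Finset G)) G) := fun g => rfl
  let q : XX G → Filter.Germ (U : Filter (Finset (XX G) × Finset G)) G :=
    fun x => ((fun p => c p x : (Finset (XX G) × Finset G) → G) :
      Filter.Germ (U : Filter (Finset (XX G) × Finset G)) G)
  have hev : ∀ (E : Finset (XX G)) (W : Finset G),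
      ∀ᶠ p in (U : Filter (Finset (XX G) × Finset G)), E ⊆ p.1 ∧ W ⊆ p.2 := by
    intro E W
    exact (Filter.eventually_ge_atTop (E, W)).filter_mono hU |>.mono (fun p hp => hp)
  have hlt : ∀ x y, x < y → ∃ t ∈ commutator G, (q x)⁻¹ * (q y)⁻¹ * q x * q y = i t := by
    intro x y hxy
    have hmem : (⋃ v ∈ Set.range (dl y.1), {p | (c p x)⁻¹ * (c p y)⁻¹ * c p x * c p y = v}) ∈ U := by
      have : ∀ᶠ p in (U : Filter (Finset (XX G) × Finset G)),
          p ∈ (⋃ v ∈ Set.range (dl y.1), {p | (c p x)⁻¹ * (c p y)⁻¹ * c p x * c p y = v}) := by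
        filter_upwards [hev {x, y} ∅] with p hp
        simp only [Set.mem_iUnion]
        refine ⟨dl y.1 (c p x), ⟨_, rfl⟩, ?_⟩
        show (c p x)⁻¹ * (c p y)⁻¹ * c p x * c p y = dl y.1 (c p x)
        unfold dl
        rw [hc2 p x (hp.1 (by simp)) y (hp.1 (by simp)) hxy]
        group
      exact this
    rw [Ultrafilter.finite_biUnion_mem_iff y.2.2] at hmem
    obtain ⟨v, ⟨g, rfl⟩, hv⟩ := hmem
    refine ⟨dl y.1 g, y.2.1.dl_comm g, ?_⟩
    rw [hiapp]
    have h1 : (q x)⁻¹ * (q y)⁻¹ * q x * q y = ((fun p => (c p x)⁻¹ * (c p y)⁻¹ * c p x * c p y :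
        (Finset (XX G) × Finset G) → G) :
        Filter.Germ (U : Filter (Finset (XX G) × Finset G)) G) := rfl
    rw [h1, Filter.Germ.coe_eq]
    exact hv
  refine ⟨_, inferInstance, i, q, ?_, ?_, ?_, ?_⟩
  · intro a b hab
    rw [hiapp, hiapp] at hab
    exact Filter.Germ.const_inj.mp hab
  · intro z hz u
    induction u using Filter.Germ.inductionOn with
    | _ f =>
      rw [hiapp, ← Filter.Germ.coe_mul, ← Filter.Germ.coe_mul]
      congr 1
      funext p
      exact (Subgroup.mem_center_iff.mp hz (f p)).symm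
  · intro x g
    rw [hiapp, hiapp]
    have h1 : (q x)⁻¹ * ((fun _ => g : (Finset (XX G) × Finset G) → G) :
      Filter.Germ (U : Filter (Finset (XX G) × Finset G)) G) * q x = ((fun p => (c p x)⁻¹ * g * c p x :
        (Finset (XX G) × Finset G) → G) :
        Filter.Germ (U : Filter (Finset (XX G) × Finset G)) G) := rfl
    rw [h1, Filter.Germ.coe_eq]
    filter_upwards [hev {x} {g}] with p hp
    exact (hc1 p x (hp.1 (by simp)) g (hp.2 (by simp))).symm
  · intro x y
    rcases lt_trichotomy x y with h | h | h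
    · exact hlt x y h
    · subst h
      exact ⟨1, one_mem _, by rw [map_one]; group⟩
    · obtain ⟨t, ht, h1⟩ := hlt y x h
      refine ⟨t⁻¹, inv_mem ht, ?_⟩
      rw [map_inv, ← h1]
      group

end ultra

end Pool.Agent.FCV
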