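import Pool.Agent.FCV.A8

set_option autoImplicit false

namespace Pool.Agent.FCV

open scoped commutatorElement Pointwise IsMulCommutative

section tw

/-- twisted product of a group with an abelian group -/
@[ext] structure Tw {Q Z L : Type} [Group Q] [CommGroup Z] [AddCommGroup L]
    (j : Z →* ↥(Subgroup.center Q)) (β : L →+ L →+ Additive Z) where
  a : Q
  m : L

namespace Tw

variable {Q Z L : Type} [Group Q] [CommGroup Z] [AddCommGroup L]
    {j : Z →* ↥(Subgroup.center Q)} {β : L →+ L →+ Additive Z}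

/-- value of the cocycle -/
def co (j : Z →* ↥(Subgroup.center Q)) (z : Additive Z) : Q := (j (Additive.toMul z) : Q)

theorem co_add (z w : Additive Z) : co j (z + w) = co j z * co j w := by
  unfold co
  rw [toMul_add, map_mul]; rfl

theorem co_zero : co j 0 = 1 := by
  unfold co
  rw [toMul_zero, map_one]; rfl

theorem co_neg (z : Additive Z) : co j (-z) = (co j z)⁻¹ := by
  unfold co
  rw [toMul_neg, map_inv]; rfl

theorem co_comm (z : Additive Z) (u : Q) : co j z * u = u * co j z :=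
  (Subgroup.mem_center_iff.mp (j (Additive.toMul z)).2 u).symm

instance : Mul (Tw j β) := ⟨fun x y => ⟨x.a * y.a * co j (β x.m y.m), x.m + y.m⟩⟩
instance : One (Tw j β) := ⟨⟨1, 0⟩⟩
instance : Inv (Tw j β) := ⟨fun x => ⟨(x.a)⁻¹ * co j (β x.m x.m), -x.m⟩⟩

theorem mul_a (x y : Tw j β) : (x * y).a = x.a * y.a * co j (β x.m y.m) := rfl
theorem mul_m (x y : Tw j β) : (x * y).m = x.m + y.m := rfl
theorem one_a : (1 : Tw j β).a = 1 := rfl
theorem one_m : (1 : Tw j β).m = 0 := rfl
theorem inv_a (x : Tw j β) : (x⁻¹).a = (x.a)⁻¹ * co j (β x.m x.m) := rfl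
theorem inv_m (x : Tw j β) : (x⁻¹).m = -x.m := rfl

instance : Group (Tw j β) := Group.ofLeftAxioms
  (by
    intro x y w
    apply Tw.ext
    · simp only [mul_a, mul_m, map_add, AddMonoidHom.add_apply, co_add]
      have h1 := co_comm (j := j) (β x.m y.m) w.a
      calc x.a * y.a * co j (β x.m y.m) * w.a * (co j (β x.m w.m) * co j (β y.m w.m))
          = x.a * y.a * (co j (β x.m y.m) * w.a) * (co j (β x.m w.m) * co j (β y.m w.m)) := by group
        _ = x.a * y.a * (w.a * co j (β x.m y.m)) * (co j (β y.m w.m) * co j (β x.m w.m)) := by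
            rw [h1, co_comm (j := j) (β x.m w.m) (co j (β y.m w.m))]
        _ = x.a * y.a * w.a * (co j (β x.m y.m) * co j (β y.m w.m)) * co j (β x.m w.m) := by group
        _ = x.a * y.a * w.a * (co j (β y.m w.m) * co j (β x.m y.m)) * co j (β x.m w.m) := by
            rw [co_comm (j := j) (β x.m y.m) (co j (β y.m w.m))]
        _ = _ := by group
    · simp only [mul_m]; abel)
  (by
    intro x
    apply Tw.ext
    · simp [mul_a, one_a, one_m, co_zero]
    · simp [mul_m, one_m])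
  (by
    intro x
    apply Tw.ext
    · simp only [mul_a, inv_a, inv_m, map_neg, AddMonoidHom.neg_apply, co_neg, one_a]
      have h1 := co_comm (j := j) (β x.m x.m) x.a
      calc (x.a)⁻¹ * co j (β x.m x.m) * x.a * (co j (β x.m x.m))⁻¹
          = (x.a)⁻¹ * (co j (β x.m x.m) * x.a) * (co j (β x.m x.m))⁻¹ := by group
        _ = 1 := by rw [h1]; group
    · simp [mul_m, inv_m, one_m])

/-- the embedding -/
def inQ (j : Z →* ↥(Subgroup.center Q)) (β : L →+ L →+ Additive Z) : Q →* Tw j β :=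
  MonoidHom.mk' (fun a => ⟨a, 0⟩) (by
    intro a b
    apply Tw.ext
    · simp [mul_a, co_zero]
    · simp [mul_m])

theorem inQ_a (a : Q) : (inQ j β a).a = a := rfl
theorem inQ_m (a : Q) : (inQ j β a).m = 0 := rfl

end Tw

end tw

section pkg

variable {G : Type} [Group G]

/-- the commutator automorphism -/
def ww (x y : XX G) : MulAut G := y.1 * x.1 * (y.1)⁻¹ * (x.1)⁻¹

theorem ww_finite (x : XX G) : (Set.range (fun y => ww x y)).Finite := by
  refine ((XX_classes x.2).image (fun u => u * (x.1)⁻¹)).subset ?_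
  rintro _ ⟨y, rfl⟩
  refine ⟨y.1 * x.1 * (y.1)⁻¹, ⟨(y.1)⁻¹, inv_mem y.2, by simp⟩, rfl⟩

theorem ww_inv (x y : XX G) : ww y x = (ww x y)⁻¹ := by
  unfold ww
  group

theorem ww_finite' (x : XX G) : (Set.range (fun y => ww y x)).Finite := by
  refine ((ww_finite x).image (fun u => u⁻¹)).subset ?_
  rintro _ ⟨y, rfl⟩
  exact ⟨_, ⟨y, rfl⟩, (ww_inv x y).symm⟩

/-- The completion package. -/
theorem exists_P :
    ∃ (P : Type) (_ : Group P) (i : G →* P) (s : XX G → P), Function.Injective i ∧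
      (∀ x g, (s x)⁻¹ * i g * s x = i (x.1 g)) ∧
      ∀ x, ∃ F : Set G, F.Finite ∧ (∀ t ∈ F, t ∈ commutator G) ∧
        ∀ y, ∃ t ∈ F, (s x)⁻¹ * (s y)⁻¹ * s x * s y = i t := by
  classical
  obtain ⟨Q, _, i, q, hinj, hcen, hq, hqq⟩ := exists_Q (G := G)
  choose τ0 hτ0 hτ using hqq
  -- the automorphism induced by the commutator
  have hw : ∀ x y, ∀ g, (τ0 x y)⁻¹ * g * τ0 x y = ww x y g := by
    intro x y g
    apply hinj
    rw [map_mul, map_mul, map_inv, ← hτ]
    unfold ww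
    have e1 : ∀ x : XX G, ∀ g, (q x) * i g * (q x)⁻¹ = i ((x.1)⁻¹ g) := by
      intro x g
      have := hq x ((x.1)⁻¹ g)
      rw [MulAut.apply_inv_self] at this
      rw [← this]; group
    have : i ((y.1 * x.1 * (y.1)⁻¹ * (x.1)⁻¹) g) =
        (q y)⁻¹ * ((q x)⁻¹ * ((q y) * ((q x) * i g * (q x)⁻¹) * (q y)⁻¹) * q x) * q y := by
      rw [e1, e1, hq, hq]; rfl
    rw [this]; group
  -- the section
  let σ : MulAut G → G := fun w => if h : ∃ t ∈ commutator G, ∀ g, t⁻¹ * g * t = w g then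
    h.choose else 1
  have hσ : ∀ x y, σ (ww x y) ∈ commutator G ∧ ∀ g, (σ (ww x y))⁻¹ * g * σ (ww x y) = ww x y g := by
    intro x y
    have h : ∃ t ∈ commutator G, ∀ g, t⁻¹ * g * t = ww x y g := ⟨τ0 x y, hτ0 x y, hw x y⟩
    have : σ (ww x y) = h.choose := dif_pos h
    rw [this]
    exact h.choose_spec
  have hζ : ∀ x y, (τ0 x y)⁻¹ * σ (ww x y) ∈ Subgroup.center G := by
    intro x y
    rw [Subgroup.mem_center_iff]
    intro g
    have h1 := hw x y (τ0 x y * g * (τ0 x y)⁻¹)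
    have h2 := (hσ x y).2 (τ0 x y * g * (τ0 x y)⁻¹)
    rw [← h1] at h2
    have h3 : (τ0 x y)⁻¹ * (τ0 x y * g * (τ0 x y)⁻¹) * τ0 x y = g := by group
    rw [h3] at h2
    calc g * ((τ0 x y)⁻¹ * σ (ww x y))
        = ((σ (ww x y))⁻¹ * (τ0 x y * g * (τ0 x y)⁻¹) * σ (ww x y)) *
          ((τ0 x y)⁻¹ * σ (ww x y)) := by rw [h2]
      _ = ((τ0 x y)⁻¹ * σ (ww x y)) * (((τ0 x y)⁻¹ * σ (ww x y))⁻¹ *
          ((σ (ww x y))⁻¹ * (τ0 x y * g * (τ0 x y)⁻¹) * σ (ww x y)) *
          ((τ0 x y)⁻¹ * σ (ww x y))) := by group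
      _ = ((τ0 x y)⁻¹ * σ (ww x y)) * ((σ (ww x y))⁻¹ * τ0 x y * g *
          (τ0 x y)⁻¹ * σ (ww x y)) := by rw [h2]; group
      _ = ((τ0 x y)⁻¹ * σ (ww x y)) *
          ((σ (ww x y))⁻¹ * (τ0 x y * g * (τ0 x y)⁻¹) * σ (ww x y)) := by group
      _ = ((τ0 x y)⁻¹ * σ (ww x y)) * g := by rw [h2]
  -- the twist
  let jj : ↥(Subgroup.center G) →* ↥(Subgroup.center Q) :=
    MonoidHom.mk' (fun z => ⟨i z.1, by
      rw [Subgroup.mem_center_iff]
      intro u
      exact (hcen z.1 z.2 u).symm⟩) (by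
      intro a b
      apply Subtype.ext
      exact map_mul i _ _)
  let b : XX G → XX G → Additive ↥(Subgroup.center G) := fun x y =>
    if WellOrderingRel x y then Additive.ofMul ⟨_, hζ x y⟩ else 0
  let s : XX G → Tw jj (bil b) := fun x => ⟨q x, Finsupp.single x 1⟩
  have hlt : ∀ x y, WellOrderingRel x y →
      (s x)⁻¹ * (s y)⁻¹ * s x * s y = Tw.inQ jj (bil b) (i (σ (ww x y))) := by
    intro x y hxy
    have hyx : ¬ WellOrderingRel y x := asymm_of _ hxy
    have key : s x * s y = s y * s x * Tw.inQ jj (bil b) (i (σ (ww x y))) := by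
      apply Tw.ext
      · simp only [Tw.mul_a, Tw.mul_m, Tw.inQ_a, Tw.inQ_m, map_zero, Tw.co_zero, mul_one]
        show q x * q y * Tw.co jj (bil b (Finsupp.single x 1) (Finsupp.single y 1)) =
          q y * q x * Tw.co jj (bil b (Finsupp.single y 1) (Finsupp.single x 1)) *
            i (σ (ww x y))
        rw [bil_single, bil_single, one_smul, one_smul, one_smul, one_smul]
        have e1 : b x y = Additive.ofMul ⟨_, hζ x y⟩ := if_pos hxy
        have e2 : b y x = 0 := if_neg hyx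
        rw [e1, e2, Tw.co_zero, mul_one]
        have e3 : Tw.co jj (Additive.ofMul ⟨_, hζ x y⟩) = i ((τ0 x y)⁻¹ * σ (ww x y)) := rfl
        rw [e3, map_mul, map_inv, ← hτ]
        group
      · simp only [Tw.mul_m, Tw.inQ_m, add_zero]
        exact add_comm _ _
    calc (s x)⁻¹ * (s y)⁻¹ * s x * s y = (s x)⁻¹ * (s y)⁻¹ * (s x * s y) := by group
      _ = (s x)⁻¹ * (s y)⁻¹ * (s y * s x * Tw.inQ jj (bil b) (i (σ (ww x y)))) := by rw [key]
      _ = _ := by group
  refine ⟨Tw jj (bil b), inferInstance, (Tw.inQ jj (bil b)).comp i, s, ?_, ?_, ?_⟩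
  · intro a c hac
    have : (Tw.inQ jj (bil b) (i a)).a = (Tw.inQ jj (bil b) (i c)).a := congrArg Tw.a hac
    exact hinj this
  · intro x g
    have key : Tw.inQ jj (bil b) (i g) * s x = s x * Tw.inQ jj (bil b) (i (x.1 g)) := by
      apply Tw.ext
      · simp only [Tw.mul_a, Tw.inQ_a, Tw.inQ_m, map_zero, AddMonoidHom.zero_apply, Tw.co_zero,
          mul_one]
        show i g * q x = q x * i (x.1 g)
        rw [← hq]; group
      · simp only [Tw.mul_m, Tw.inQ_m]
        exact add_comm _ _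
    show (s x)⁻¹ * Tw.inQ jj (bil b) (i g) * s x = Tw.inQ jj (bil b) (i (x.1 g))
    rw [mul_assoc, key]; group
  · intro x
    refine ⟨{1} ∪ σ '' (Set.range (fun y => ww x y)) ∪ (σ '' (Set.range (fun y => ww y x)))⁻¹,
      ((Set.finite_singleton _).union ((ww_finite x).image σ)).union
        ((ww_finite' x).image σ).inv, ?_, ?_⟩
    · rintro t ((ht | ⟨_, ⟨y, rfl⟩, rfl⟩) | ht)
      · rw [Set.mem_singleton_iff] at ht
        rw [ht]; exact one_mem _
      · exact (hσ x y).1
      · obtain ⟨_, ⟨y, rfl⟩, h⟩ := Set.mem_inv.mp ht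
        have := (hσ y x).1
        simp only at h
        rw [h] at this
        simpa using inv_mem this
    · intro y
      rcases trichotomous_of WellOrderingRel x y with h | h | h
      · exact ⟨σ (ww x y), Or.inl (Or.inr ⟨_, ⟨y, rfl⟩, rfl⟩), hlt x y h⟩
      · subst h
        refine ⟨1, Or.inl (Or.inl rfl), ?_⟩
        rw [map_one]; group
      · refine ⟨(σ (ww y x))⁻¹, Or.inr (Set.mem_inv.mpr ⟨_, ⟨y, rfl⟩, by simp⟩), ?_⟩
        have := hlt y x h
        rw [map_inv]
        show _ = (Tw.inQ jj (bil b) (i (σ (ww y x))))⁻¹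
        rw [← this]; group

end pkg

end Pool.Agent.FCV
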